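import Mathlib
import Pool.Agent.Helper91.Ov.Def

/-!
# Arithmetic formulas: reads and rank
-/

set_option autoImplicit false

namespace Pool.Agent.Helper62.RK

open MvPolynomial
open Pool.Agent.Helper91.Ov (Supp)

/-- Arithmetic formulas: the leaves are labelled by polynomials. -/
inductive Fm (n : ℕ) : Type
  | leaf (T : MvPolynomial (Fin n) ℂ) : Fm n
  | add (f g : Fm n) : Fm n
  | mul (f g : Fm n) : Fm n

namespace Fm

variable {n : ℕ}

/-- The polynomial computed by a formula. -/
noncomputable def poly : Fm n → MvPolynomial (Fin n) ℂ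
  | leaf T => T
  | add f g => f.poly + g.poly
  | mul f g => f.poly * g.poly

/-- All leaves are polynomials in at most `c` variables. -/
def LB (c : ℕ) : Fm n → Prop
  | leaf T => T.vars.card ≤ c
  | add f g => f.LB c ∧ g.LB c
  | mul f g => f.LB c ∧ g.LB c

/-- The number of leaves containing the variable `i`. -/
noncomputable def occ (i : Fin n) : Fm n → ℕ
  | leaf T => if i ∈ T.vars then 1 else 0
  | add f g => f.occ i + g.occ i
  | mul f g => f.occ i + g.occ i

/-- The variables. -/
noncomputable def vars : Fm n → Finset (Fin n)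
  | leaf T => T.vars
  | add f g => f.vars ∪ g.vars
  | mul f g => f.vars ∪ g.vars

/-- The rank. -/
noncomputable def rank : Fm n → ℕ
  | leaf _ => 0
  | add f g => if Disjoint f.vars g.vars then max f.rank g.rank
      else 2 * (max f.rank g.rank / 2) + 1
  | mul f g => if f.rank = g.rank ∧ f.rank % 2 = 1 then f.rank + 1 else max f.rank g.rank

theorem mem_vars_iff {F : Fm n} {i : Fin n} : i ∈ F.vars ↔ 0 < F.occ i := by
  induction F with
  | leaf T =>
    rw [vars, occ]
    split_ifs with h
    · exact ⟨fun _ => Nat.one_pos, fun _ => h⟩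
    · exact ⟨fun h' => absurd h' h, fun h' => absurd h' (lt_irrefl 0)⟩
  | add f g ihf ihg =>
    rw [vars, occ, Finset.mem_union, ihf, ihg]
    omega
  | mul f g ihf ihg =>
    rw [vars, occ, Finset.mem_union, ihf, ihg]
    omega

theorem supp_vars (F : Fm n) : Supp F.vars F.poly := by
  induction F with
  | leaf T => exact mem_supported.2 (Set.Subset.refl _)
  | add f g ihf ihg =>
    exact (ihf.mono Finset.subset_union_left).add (ihg.mono Finset.subset_union_right)
  | mul f g ihf ihg =>
    exact (ihf.mono Finset.subset_union_left).mul (ihg.mono Finset.subset_union_right)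

theorem disjoint_iff {f g : Fm n} : Disjoint f.vars g.vars ↔ ∀ i, f.occ i = 0 ∨ g.occ i = 0 := by
  rw [Finset.disjoint_left]
  refine forall_congr' fun i => ?_
  rw [mem_vars_iff, mem_vars_iff]
  omega

theorem rank_add_le (f g : Fm n) :
    max f.rank g.rank ≤ (add f g).rank ∧
      (add f g).rank ≤ 2 * (max f.rank g.rank / 2) + 1 := by
  rw [rank]
  split_ifs
  · omega
  · omega

theorem rank_mul_le (f g : Fm n) :
    max f.rank g.rank ≤ (mul f g).rank ∧
      (mul f g).rank ≤ 2 * ((max f.rank g.rank + 1) / 2) := by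
  rw [rank]
  split_ifs <;> omega

/-- The rank is monotone. -/
theorem rank_add_mono {f g f' g' : Fm n} (h1 : f'.rank ≤ f.rank) (h2 : g'.rank ≤ g.rank)
    (h3 : ∀ i, f'.occ i ≤ f.occ i) (h4 : ∀ i, g'.occ i ≤ g.occ i) :
    (add f' g').rank ≤ (add f g).rank := by
  rw [rank, rank]
  by_cases hd : Disjoint f.vars g.vars
  · have hd' : Disjoint f'.vars g'.vars := by
      rw [disjoint_iff] at hd ⊢
      intro i
      have := hd i
      have := h3 i
      have := h4 i
      omega
    rw [if_pos hd, if_pos hd']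
    omega
  · rw [if_neg hd]
    split_ifs <;> omega

theorem rank_mul_mono {f g f' g' : Fm n} (h1 : f'.rank ≤ f.rank) (h2 : g'.rank ≤ g.rank) :
    (mul f' g').rank ≤ (mul f g).rank := by
  rw [rank, rank]
  split_ifs <;> omega

/-- The class of formulas with at most `k` occurrences of each variable, rank at most `R` and
leaves with at most `c` variables. -/
structure Cl (c k R : ℕ) (F : Fm n) : Prop where
  lb : F.LB c
  occ : ∀ i, F.occ i ≤ k
  rank : F.rank ≤ R

/-- Smaller formulas. -/
structure Le (c : ℕ) (G F : Fm n) : Prop where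
  lb : F.LB c → G.LB c
  occ : ∀ i, G.occ i ≤ F.occ i
  rank : G.rank ≤ F.rank

theorem Le.refl (c : ℕ) (F : Fm n) : Le c F F := ⟨id, fun _ => le_rfl, le_rfl⟩

theorem Le.trans {c : ℕ} {F G H : Fm n} (h1 : Le c F G) (h2 : Le c G H) : Le c F H :=
  ⟨fun h => h1.lb (h2.lb h), fun i => (h1.occ i).trans (h2.occ i), h1.rank.trans h2.rank⟩

theorem occ_const (a : ℂ) (i : Fin n) : (leaf (C a) : Fm n).occ i = 0 := by
  rw [Fm.occ, vars_C, if_neg (Finset.notMem_empty i)]

theorem Le.const (c : ℕ) (a : ℂ) (F : Fm n) : Le c (leaf (C a)) F := by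
  refine ⟨fun _ => ?_, fun i => ?_, ?_⟩
  · rw [LB, vars_C]
    exact Nat.zero_le _
  · rw [occ_const]
    exact Nat.zero_le _
  · rw [Fm.rank]
    exact Nat.zero_le _

theorem Le.add {c : ℕ} {f g f' g' : Fm n} (h1 : Le c f' f) (h2 : Le c g' g) :
    Le c (add f' g') (add f g) :=
  ⟨fun h => ⟨h1.lb h.1, h2.lb h.2⟩, fun i => Nat.add_le_add (h1.occ i) (h2.occ i),
    rank_add_mono h1.rank h2.rank h1.occ h2.occ⟩

theorem Le.mul {c : ℕ} {f g f' g' : Fm n} (h1 : Le c f' f) (h2 : Le c g' g) :
    Le c (mul f' g') (mul f g) :=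
  ⟨fun h => ⟨h1.lb h.1, h2.lb h.2⟩, fun i => Nat.add_le_add (h1.occ i) (h2.occ i),
    rank_mul_mono h1.rank h2.rank⟩

theorem Le.addL (c : ℕ) (f g : Fm n) : Le c f (Fm.add f g) :=
  ⟨fun h => h.1, fun _ => Nat.le_add_right _ _, (le_max_left _ _).trans (rank_add_le f g).1⟩

theorem Le.addR (c : ℕ) (f g : Fm n) : Le c g (Fm.add f g) :=
  ⟨fun h => h.2, fun _ => Nat.le_add_left _ _, (le_max_right _ _).trans (rank_add_le f g).1⟩

theorem Le.mulL (c : ℕ) (f g : Fm n) : Le c f (Fm.mul f g) :=
  ⟨fun h => h.1, fun _ => Nat.le_add_right _ _, (le_max_left _ _).trans (rank_mul_le f g).1⟩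

theorem Le.mulR (c : ℕ) (f g : Fm n) : Le c g (Fm.mul f g) :=
  ⟨fun h => h.2, fun _ => Nat.le_add_left _ _, (le_max_right _ _).trans (rank_mul_le f g).1⟩

theorem Cl.le {c k R : ℕ} {F G : Fm n} (h : Cl c k R F) (hG : Le c G F) : Cl c k R G :=
  ⟨hG.lb h.lb, fun i => (hG.occ i).trans (h.occ i), hG.rank.trans h.rank⟩

theorem Cl.mono {c k R k' R' : ℕ} {F : Fm n} (h : Cl c k R F) (hk : k ≤ k') (hR : R ≤ R') :
    Cl c k' R' F :=
  ⟨h.lb, fun i => (h.occ i).trans hk, h.rank.trans hR⟩

/-- Subformulas. -/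
inductive Sub (F : Fm n) : Fm n → Prop
  | refl : Sub F F
  | addL {f g : Fm n} (h : Sub F f) : Sub F (add f g)
  | addR {f g : Fm n} (h : Sub F g) : Sub F (add f g)
  | mulL {f g : Fm n} (h : Sub F f) : Sub F (mul f g)
  | mulR {f g : Fm n} (h : Sub F g) : Sub F (mul f g)

theorem Sub.trans {F G H : Fm n} (h1 : Sub F G) (h2 : Sub G H) : Sub F H := by
  induction h2 with
  | refl => exact h1
  | addL _ ih => exact Sub.addL ih
  | addR _ ih => exact Sub.addR ih
  | mulL _ ih => exact Sub.mulL ih
  | mulR _ ih => exact Sub.mulR ih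

theorem Sub.le {F G : Fm n} (h : Sub F G) (c : ℕ) : Le c F G := by
  induction h with
  | refl => exact Le.refl c F
  | addL _ ih => exact ih.trans (Le.addL c _ _)
  | addR _ ih => exact ih.trans (Le.addR c _ _)
  | mulL _ ih => exact ih.trans (Le.mulL c _ _)
  | mulR _ ih => exact ih.trans (Le.mulR c _ _)

/-- The dependence on a subformula is affine; the coefficients are computed by the formulas in
which the subformula is replaced by a constant. -/
theorem Sub.affine {g F : Fm n} (h : Sub g F) (c : ℕ) :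
    ∃ H1 H0 : Fm n, Le c H1 F ∧ Le c H0 F ∧ (∀ i, H1.occ i + g.occ i ≤ F.occ i) ∧
      (∀ i, H0.occ i + g.occ i ≤ F.occ i) ∧
      F.poly = (H1.poly - H0.poly) * g.poly + H0.poly := by
  induction h with
  | refl =>
    refine ⟨leaf (C 1), leaf (C 0), Le.const c 1 g, Le.const c 0 g, fun i => ?_, fun i => ?_, ?_⟩
    · rw [occ_const, zero_add]
    · rw [occ_const, zero_add]
    · rw [poly, poly, C_0, C_1, sub_zero, one_mul, add_zero]
  | @addL f g' _ ih =>
    obtain ⟨H1, H0, h1, h2, h3, h4, h5⟩ := ih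
    refine ⟨add H1 g', add H0 g', h1.add (Le.refl c g'), h2.add (Le.refl c g'), fun i => ?_,
      fun i => ?_, ?_⟩
    · have := h3 i
      rw [occ, occ]
      omega
    · have := h4 i
      rw [occ, occ]
      omega
    · rw [poly, poly, poly, h5]
      ring
  | @addR f g' _ ih =>
    obtain ⟨H1, H0, h1, h2, h3, h4, h5⟩ := ih
    refine ⟨add f H1, add f H0, (Le.refl c f).add h1, (Le.refl c f).add h2, fun i => ?_,
      fun i => ?_, ?_⟩
    · have := h3 i
      rw [occ, occ]
      omega
    · have := h4 i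
      rw [occ, occ]
      omega
    · rw [poly, poly, poly, h5]
      ring
  | @mulL f g' _ ih =>
    obtain ⟨H1, H0, h1, h2, h3, h4, h5⟩ := ih
    refine ⟨mul H1 g', mul H0 g', h1.mul (Le.refl c g'), h2.mul (Le.refl c g'), fun i => ?_,
      fun i => ?_, ?_⟩
    · have := h3 i
      rw [occ, occ]
      omega
    · have := h4 i
      rw [occ, occ]
      omega
    · rw [poly, poly, poly, h5]
      ring
  | @mulR f g' _ ih =>
    obtain ⟨H1, H0, h1, h2, h3, h4, h5⟩ := ih
    refine ⟨mul f H1, mul f H0, (Le.refl c f).mul h1, (Le.refl c f).mul h2, fun i => ?_,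
      fun i => ?_, ?_⟩
    · have := h3 i
      rw [occ, occ]
      omega
    · have := h4 i
      rw [occ, occ]
      omega
    · rw [poly, poly, poly, h5]
      ring

/-- No factor of a product gate vanishes. -/
def Nz : Fm n → Prop
  | leaf _ => True
  | add f g => f.Nz ∧ g.Nz
  | mul f g => f.poly ≠ 0 ∧ g.poly ≠ 0 ∧ f.Nz ∧ g.Nz

open Classical in
/-- Replace the vanishing gates by `0`. -/
noncomputable def clean : Fm n → Fm n
  | leaf T => leaf T
  | add f g => if f.poly + g.poly = 0 then leaf (C 0) else add f.clean g.clean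
  | mul f g => if f.poly * g.poly = 0 then leaf (C 0) else mul f.clean g.clean

theorem poly_clean (F : Fm n) : F.clean.poly = F.poly := by
  induction F with
  | leaf T => rfl
  | add f g ihf ihg =>
    rw [clean, poly]
    split_ifs with h
    · rw [h, poly, C_0]
    · rw [poly, ihf, ihg]
  | mul f g ihf ihg =>
    rw [clean, poly]
    split_ifs with h
    · rw [h, poly, C_0]
    · rw [poly, ihf, ihg]

theorem clean_le (c : ℕ) (F : Fm n) : Le c F.clean F := by
  induction F with
  | leaf T => exact Le.refl c _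
  | add f g ihf ihg =>
    rw [clean]
    split_ifs with h
    · exact Le.const c 0 _
    · exact ihf.add ihg
  | mul f g ihf ihg =>
    rw [clean]
    split_ifs with h
    · exact Le.const c 0 _
    · exact ihf.mul ihg

theorem nz_clean (F : Fm n) : F.clean.Nz := by
  induction F with
  | leaf T => exact trivial
  | add f g ihf ihg =>
    rw [clean]
    split_ifs with h
    · exact trivial
    · exact ⟨ihf, ihg⟩
  | mul f g ihf ihg =>
    rw [clean]
    split_ifs with h
    · exact trivial
    · refine ⟨?_, ?_, ihf, ihg⟩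
      · rw [poly_clean]
        exact left_ne_zero_of_mul h
      · rw [poly_clean]
        exact right_ne_zero_of_mul h

theorem Sub.nz {F G : Fm n} (h : Sub F G) (hG : G.Nz) : F.Nz := by
  induction h with
  | refl => exact hG
  | addL _ ih => exact ih hG.1
  | addR _ ih => exact ih hG.2
  | mulL _ ih => exact ih hG.2.2.1
  | mulR _ ih => exact ih hG.2.2.2

/-- Substitute `0` for the variables in `s`. -/
noncomputable def zr (s : Finset (Fin n)) : MvPolynomial (Fin n) ℂ →ₐ[ℂ] MvPolynomial (Fin n) ℂ :=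
  aeval fun l => if l ∈ s then 0 else X l

/-- Substitute `0` for the variables in `s`. -/
noncomputable def kl (s : Finset (Fin n)) : Fm n → Fm n
  | leaf T => leaf (zr s T)
  | add f g => add (f.kl s) (g.kl s)
  | mul f g => mul (f.kl s) (g.kl s)

theorem poly_kl (s : Finset (Fin n)) (F : Fm n) : (F.kl s).poly = zr s F.poly := by
  induction F with
  | leaf T => rfl
  | add f g ihf ihg => rw [kl, poly, poly, map_add, ihf, ihg]
  | mul f g ihf ihg => rw [kl, poly, poly, map_mul, ihf, ihg]

theorem vars_zr (s : Finset (Fin n)) (T : MvPolynomial (Fin n) ℂ) : (zr s T).vars ⊆ T.vars \ s := by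
  have h : T ∈ supported ℂ (T.vars : Set (Fin n)) := mem_supported.2 (Set.Subset.refl _)
  have h1 : (supported ℂ (T.vars : Set (Fin n))) ≤
      (supported ℂ ((T.vars \ s : Finset (Fin n)) : Set (Fin n))).comap (zr s) := by
    apply Algebra.adjoin_le
    rintro _ ⟨i, hi, rfl⟩
    change zr s (X i) ∈ supported ℂ ((T.vars \ s : Finset (Fin n)) : Set (Fin n))
    rw [zr, aeval_X]
    split_ifs with his
    · exact zero_mem _
    · apply Algebra.subset_adjoin
      exact ⟨i, Finset.mem_coe.2 (Finset.mem_sdiff.2 ⟨Finset.mem_coe.1 hi, his⟩), rfl⟩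
  exact Finset.coe_subset.1 (mem_supported.1 (h1 h))

theorem occ_kl (s : Finset (Fin n)) (F : Fm n) (i : Fin n) : (F.kl s).occ i ≤ F.occ i := by
  induction F with
  | leaf T =>
    rw [kl, occ, occ]
    by_cases h : i ∈ (zr s T).vars
    · rw [if_pos h, if_pos (Finset.mem_sdiff.1 (vars_zr s T h)).1]
    · rw [if_neg h]
      exact Nat.zero_le _
  | add f g ihf ihg =>
    rw [kl, occ, occ]
    omega
  | mul f g ihf ihg =>
    rw [kl, occ, occ]
    omega

theorem occ_kl_mem (s : Finset (Fin n)) (F : Fm n) {i : Fin n} (hi : i ∈ s) :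
    (F.kl s).occ i = 0 := by
  induction F with
  | leaf T =>
    rw [kl, occ, if_neg]
    intro h
    exact (Finset.mem_sdiff.1 (vars_zr s T h)).2 hi
  | add f g ihf ihg => rw [kl, occ, ihf, ihg]
  | mul f g ihf ihg => rw [kl, occ, ihf, ihg]

theorem kl_le (c : ℕ) (s : Finset (Fin n)) (F : Fm n) : Le c (F.kl s) F := by
  induction F with
  | leaf T =>
    refine ⟨fun h => ?_, fun i => occ_kl s _ i, ?_⟩
    · exact (Finset.card_le_card ((vars_zr s T).trans Finset.sdiff_subset)).trans h
    · exact le_rfl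
  | add f g ihf ihg => exact ihf.add ihg
  | mul f g ihf ihg => exact ihf.mul ihg

end Fm

end Pool.Agent.Helper62.RK
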