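import Mathlib
import Pool.Agent.Helper62.RK.Def
import Pool.Agent.Helper91.Ov.RP

/-!
# Read-k formulas are products of matrices of bounded width along long sequences of variables
-/

set_option autoImplicit false
set_option linter.unusedSectionVars false

namespace Pool.Agent.Helper62.RK

open MvPolynomial Fm
open Pool.Agent.Helper91.Ov (Supp Rep rep_const RP rep_mono nodup_of_lt EA_res_supp map_mul_inv
  map_one_inv)
open Pool.Agent.Helper91.RO (res EA ev ev_res uni dia uni_mulVec dia_mulVec uni_det dia_det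
  uni_map dia_map sublist_of_subset)

variable {n : ℕ}

/-- The variables of `V` with some, but not all of their occurrences in `g`. -/
noncomputable def mix (V : Finset (Fin n)) (K : ℕ) (g : Fm n) : Finset (Fin n) :=
  V.filter fun v => 0 < g.occ v ∧ g.occ v < K

/-- The variables of `V` with all their occurrences in `g`. -/
noncomputable def ful (V : Finset (Fin n)) (K : ℕ) (g : Fm n) : Finset (Fin n) :=
  V.filter fun v => g.occ v = K

theorem ful_gate {K : ℕ} (hK : 1 ≤ K) (V : Finset (Fin n)) {G f g : Fm n}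
    (hocc : ∀ v, G.occ v = f.occ v + g.occ v) :
    (ful V K G).card ≤ (ful V K f).card + (ful V K g).card + (mix V K f).card := by
  classical
  have h : ful V K G ⊆ (ful V K f ∪ ful V K g) ∪ mix V K f := by
    intro v hv
    rw [ful, Finset.mem_filter, hocc] at hv
    rw [Finset.mem_union, Finset.mem_union, ful, ful, mix, Finset.mem_filter, Finset.mem_filter,
      Finset.mem_filter]
    rcases Nat.eq_zero_or_pos (f.occ v) with h0 | h0
    · left
      right
      exact ⟨hv.1, by omega⟩
    · rcases Nat.eq_zero_or_pos (g.occ v) with h1 | h1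
      · left
        left
        exact ⟨hv.1, by omega⟩
      · right
        exact ⟨hv.1, h0, by omega⟩
  have h1 := Finset.card_le_card h
  have h2 := Finset.card_union_le (ful V K f ∪ ful V K g) (mix V K f)
  have h3 := Finset.card_union_le (ful V K f) (ful V K g)
  omega

/-- Going down in the formula. -/
theorem descend {c K N X : ℕ} (hK : 1 ≤ K) (V : Finset (Fin n)) (hcard : 2 * X + 2 * N + c ≤ V.card)
    (G : Fm n) (hlb : G.LB c) (hmix : ∀ g, Sub g G → (mix V K g).card < N)
    (hG : V.card < (ful V K G).card + N) :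
    ∃ g, Sub g G ∧ (ful V K g).card + N ≤ V.card ∧ X ≤ (ful V K g).card := by
  induction G with
  | leaf T =>
    exfalso
    have h : ful V K (leaf T) ⊆ T.vars := by
      intro v hv
      rw [ful, Finset.mem_filter, Fm.occ] at hv
      by_contra h0
      rw [if_neg h0] at hv
      omega
    have h1 := Finset.card_le_card h
    have h2 : T.vars.card ≤ c := hlb
    omega
  | add f g ihf ihg =>
    have h := ful_gate hK V (G := add f g) (f := f) (g := g) fun v => rfl
    have h1 := hmix f (Sub.addL Sub.refl)
    by_cases hX : X ≤ (ful V K f).card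
    · by_cases h2 : (ful V K f).card + N ≤ V.card
      · exact ⟨f, Sub.addL Sub.refl, h2, hX⟩
      · obtain ⟨g', h3, h4⟩ := ihf hlb.1 (fun g' hg' => hmix g' (Sub.addL hg')) (not_le.1 h2)
        exact ⟨g', Sub.addL h3, h4⟩
    · have hX' : X ≤ (ful V K g).card := by omega
      by_cases h2 : (ful V K g).card + N ≤ V.card
      · exact ⟨g, Sub.addR Sub.refl, h2, hX'⟩
      · obtain ⟨g', h3, h4⟩ := ihg hlb.2 (fun g' hg' => hmix g' (Sub.addR hg')) (not_le.1 h2)
        exact ⟨g', Sub.addR h3, h4⟩
  | mul f g ihf ihg =>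
    have h := ful_gate hK V (G := mul f g) (f := f) (g := g) fun v => rfl
    have h1 := hmix f (Sub.mulL Sub.refl)
    by_cases hX : X ≤ (ful V K f).card
    · by_cases h2 : (ful V K f).card + N ≤ V.card
      · exact ⟨f, Sub.mulL Sub.refl, h2, hX⟩
      · obtain ⟨g', h3, h4⟩ := ihf hlb.1 (fun g' hg' => hmix g' (Sub.mulL hg')) (not_le.1 h2)
        exact ⟨g', Sub.mulL h3, h4⟩
    · have hX' : X ≤ (ful V K g).card := by omega
      by_cases h2 : (ful V K g).card + N ≤ V.card
      · exact ⟨g, Sub.mulR Sub.refl, h2, hX'⟩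
      · obtain ⟨g', h3, h4⟩ := ihg hlb.2 (fun g' hg' => hmix g' (Sub.mulR hg')) (not_le.1 h2)
        exact ⟨g', Sub.mulR h3, h4⟩

theorem window {c K N X : ℕ} (hK : 1 ≤ K) (hN : 1 ≤ N) (V : Finset (Fin n))
    (hcard : 2 * X + 2 * N + c ≤ V.card) (G : Fm n) (hlb : G.LB c)
    (hV : ∀ v ∈ V, G.occ v = K) (hmix : ∀ g, Sub g G → (mix V K g).card < N) :
    ∃ g x, Sub g G ∧ x ∈ V ∧ g.occ x = 0 ∧ X ≤ (ful V K g).card := by
  classical
  have h0 : ful V K G = V := by
    rw [ful, Finset.filter_true_of_mem hV]
  obtain ⟨g, h1, h2, h3⟩ := descend hK V hcard G hlb hmix (by rw [h0]; omega)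
  by_contra hcon
  push Not at hcon
  have h4 : V \ ful V K g ⊆ mix V K g := by
    intro x hx
    rw [Finset.mem_sdiff, ful, Finset.mem_filter] at hx
    rw [mix, Finset.mem_filter]
    refine ⟨hx.1, Nat.pos_of_ne_zero fun h5 => ?_, ?_⟩
    · have := hcon g x h1 hx.1 h5
      omega
    · have h6 := (h1.le c).occ x
      rw [hV x hx.1] at h6
      exact lt_of_le_of_ne h6 fun h7 => hx.2 ⟨hx.1, h7⟩
  have h5 := Finset.card_le_card h4
  have h6 := hmix g h1
  have h7 : (V \ ful V K g).card = V.card - (ful V K g).card :=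
    Finset.card_sdiff_of_subset (Finset.filter_subset _ _)
  omega

section

variable {F : Type*} [Field F] [Algebra ℂ F] (p : Fin n → F)

theorem EA_res_occ (S : Finset (Fin n)) {v : Fin n} {g : Fm n} (h : g.occ v = 0) :
    EA p {v} (res p S g.poly) = res p S g.poly := by
  apply EA_res_supp p S g.supp_vars
  rw [mem_vars_iff]
  omega

/-- The matrix of a path. -/
theorem path_matrix {c k R : ℕ} (hp : ∀ G : Fm n, Cl c k R G → G.poly ≠ 0 → aeval p G.poly ≠ 0)
    (S : Finset (Fin n)) {g G : Fm n} (h : Sub g G) (hG : Cl c k R G) (hnz : G.Nz) :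
    ∃ A : Matrix (Fin 2) (Fin 2) (MvPolynomial (Fin n) F), ev p A.det ≠ 0 ∧
      (∀ v, G.occ v = g.occ v → A.map (EA p {v}) = A) ∧
      A.mulVec ![res p S g.poly, 1] = ![res p S G.poly, 1] := by
  induction h with
  | refl =>
    refine ⟨1, ?_, fun v _ => map_one_inv p v, Matrix.one_mulVec _⟩
    rw [Matrix.det_one, map_one]
    exact one_ne_zero
  | @addL f s hs ih =>
    obtain ⟨A, h1, h2, h3⟩ := ih (hG.le (Le.addL c f s)) hnz.1
    refine ⟨uni (res p S s.poly) * A, ?_, ?_, ?_⟩
    · rw [Matrix.det_mul, uni_det, one_mul]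
      exact h1
    · intro v hv
      have h4 := (hs.le c).occ v
      rw [Fm.occ] at hv
      apply map_mul_inv p v
      · apply uni_map
        apply EA_res_occ
        omega
      · apply h2
        omega
    · rw [← Matrix.mulVec_mulVec, h3, uni_mulVec, Fm.poly, map_add]
  | @addR s f hs ih =>
    obtain ⟨A, h1, h2, h3⟩ := ih (hG.le (Le.addR c s f)) hnz.2
    refine ⟨uni (res p S s.poly) * A, ?_, ?_, ?_⟩
    · rw [Matrix.det_mul, uni_det, one_mul]
      exact h1
    · intro v hv
      have h4 := (hs.le c).occ v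
      rw [Fm.occ] at hv
      apply map_mul_inv p v
      · apply uni_map
        apply EA_res_occ
        omega
      · apply h2
        omega
    · rw [← Matrix.mulVec_mulVec, h3, uni_mulVec, Fm.poly, map_add, add_comm]
  | @mulL f s hs ih =>
    obtain ⟨A, h1, h2, h3⟩ := ih (hG.le (Le.mulL c f s)) hnz.2.2.1
    refine ⟨dia (res p S s.poly) * A, ?_, ?_, ?_⟩
    · rw [Matrix.det_mul, dia_det, map_mul, ev_res]
      exact mul_ne_zero (hp s (hG.le (Le.mulR c f s)) hnz.2.1) h1
    · intro v hv
      have h4 := (hs.le c).occ v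
      rw [Fm.occ] at hv
      apply map_mul_inv p v
      · apply dia_map
        apply EA_res_occ
        omega
      · apply h2
        omega
    · rw [← Matrix.mulVec_mulVec, h3, dia_mulVec, Fm.poly, map_mul]
  | @mulR s f hs ih =>
    obtain ⟨A, h1, h2, h3⟩ := ih (hG.le (Le.mulR c s f)) hnz.2.2.2
    refine ⟨dia (res p S s.poly) * A, ?_, ?_, ?_⟩
    · rw [Matrix.det_mul, dia_det, map_mul, ev_res]
      exact mul_ne_zero (hp s (hG.le (Le.mulL c s f)) hnz.1) h1
    · intro v hv
      have h4 := (hs.le c).occ v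
      rw [Fm.occ] at hv
      apply map_mul_inv p v
      · apply dia_map
        apply EA_res_occ
        omega
      · apply h2
        omega
    · rw [← Matrix.mulVec_mulVec, h3, dia_mulVec, Fm.poly, map_mul, mul_comm]

/-- A long list of variables along which the formula is a product of `2 × 2` matrices. -/
def CatK (q : ℕ) (G : Fm n) (V : Finset (Fin n)) (R : MvPolynomial (Fin n) F) : Prop :=
  ∃ (L : List (Fin n)) (M : Fin n → Matrix (Fin 2) (Fin 2) (MvPolynomial (Fin n) F)),
    L.Nodup ∧ (∀ v ∈ L, v ∈ V) ∧ L.length = q ∧ (∀ w ∈ L, ev p (M w).det ≠ 0) ∧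
    (∀ w ∈ L, ∀ v, v ≠ w → (v ∈ L ∨ G.occ v = 0) → (M w).map (EA p {v}) = M w) ∧
    (L.map M).prod.mulVec ![0, 1] = ![R, 1]

theorem CatK.rep {q : ℕ} {G : Fm n} {V : Finset (Fin n)} {R : MvPolynomial (Fin n) F}
    (h : CatK p q G V R) :
    ∃ L : List (Fin n), L.Nodup ∧ (∀ v ∈ L, v ∈ V) ∧ L.length = q ∧ Rep p 2 L R := by
  obtain ⟨L, M, h1, h2, h3, h4, h5, h6⟩ := h
  refine ⟨L, h1, h2, h3, Fin 2, inferInstance, inferInstance, M, ![1, 0], ![0, 1], ?_, h4,
    ?_, ?_, ?_, ?_⟩
  · rw [Fintype.card_fin]
  · exact fun w hw v hv hvw => h5 w hw v hvw (Or.inl hv)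
  · intro v _ α
    fin_cases α <;> simp
  · intro v _ α
    fin_cases α <;> simp
  · rw [h6]
    simp [dotProduct, Fin.sum_univ_two]

/-- The number of variables needed for `q + 1` windows. -/
def win (c N : ℕ) : ℕ → ℕ
  | 0 => 1
  | q + 1 => 2 * win c N q + 2 * N + c

theorem exists_catK {c k R K N : ℕ} (hK : 1 ≤ K) (hN : 1 ≤ N)
    (hp : ∀ G : Fm n, Cl c k R G → G.poly ≠ 0 → aeval p G.poly ≠ 0) (S : Finset (Fin n)) (q : ℕ) :
    ∀ (G : Fm n) (V : Finset (Fin n)), Cl c k R G → G.Nz → (∀ v ∈ V, G.occ v = K) →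
      (∀ g, Sub g G → (mix V K g).card < N) → win c N q ≤ V.card →
      CatK p (q + 1) G V (res p S G.poly) := by
  classical
  induction q with
  | zero =>
    intro G V hG hnz hV hmix hcard
    obtain ⟨x, hx⟩ := Finset.card_pos.1 (lt_of_lt_of_le Nat.one_pos hcard)
    refine ⟨[x], fun _ => uni (res p S G.poly), List.nodup_singleton x,
      fun v hv => (List.mem_singleton.1 hv) ▸ hx, rfl, ?_, ?_, ?_⟩
    · intro w _
      rw [uni_det, map_one]
      exact one_ne_zero
    · intro w hw v hvw hv
      apply uni_map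
      rw [List.mem_singleton] at hw
      subst hw
      apply EA_res_occ
      rcases hv with hv | hv
      · exact absurd (List.mem_singleton.1 hv) hvw
      · exact hv
    · rw [List.map_singleton, List.prod_singleton, uni_mulVec, zero_add]
  | succ q ih =>
    intro G V hG hnz hV hmix hcard
    obtain ⟨g, x, h1, h2, h3, h4⟩ := window hK hN V hcard G hG.lb hV hmix
    have hVf : ∀ v ∈ ful V K g, v ∈ V ∧ g.occ v = K := fun v hv => Finset.mem_filter.1 hv
    obtain ⟨L, M, a1, a2, a3, a4, a5, a6⟩ := ih g (ful V K g) (hG.le (h1.le c)) (h1.nz hnz)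
      (fun v hv => (hVf v hv).2) (fun g' hg' => lt_of_le_of_lt (Finset.card_le_card
        (Finset.filter_subset_filter _ (Finset.filter_subset _ _))) (hmix g' (hg'.trans h1))) h4
    obtain ⟨A, b1, b2, b3⟩ := path_matrix p hp S h1 hG hnz
    have hxL : x ∉ L := by
      intro hx
      have := (hVf x (a2 x hx)).2
      omega
    have hne : ∀ w ∈ L, w ≠ x := by
      rintro w hw rfl
      exact hxL hw
    have hzero : ∀ v, G.occ v = 0 → g.occ v = 0 := by
      intro v hv
      have := (h1.le c).occ v
      omega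
    refine ⟨x :: L, Function.update M x A, List.nodup_cons.2 ⟨hxL, a1⟩, ?_, ?_, ?_, ?_, ?_⟩
    · intro v hv
      rcases List.mem_cons.1 hv with rfl | hv
      · exact h2
      · exact (hVf v (a2 v hv)).1
    · rw [List.length_cons, a3]
    · intro w hw
      rcases List.mem_cons.1 hw with rfl | hw
      · rw [Function.update_self]
        exact b1
      · rw [Function.update_of_ne (hne w hw)]
        exact a4 w hw
    · intro w hw v hvw hv
      rcases List.mem_cons.1 hw with rfl | hw
      · rw [Function.update_self]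
        apply b2
        rcases hv with hv | hv
        · have h5 := hVf v (a2 v ((List.mem_cons.1 hv).resolve_left hvw))
          rw [hV v h5.1, h5.2]
        · rw [hv, hzero v hv]
      · rw [Function.update_of_ne (hne w hw)]
        apply a5 w hw v hvw
        rcases hv with hv | hv
        · rcases List.mem_cons.1 hv with rfl | hv
          · exact Or.inr h3
          · exact Or.inl hv
        · exact Or.inr (hzero v hv)
    · rw [List.map_cons, List.prod_cons, Function.update_self]
      have e : L.map (Function.update M x A) = L.map M := by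
        apply List.map_congr_left
        intro w hw
        rw [Function.update_of_ne (hne w hw)]
      rw [e, ← Matrix.mulVec_mulVec, a6, b3]

/-- The width for `k` occurrences. -/
def wd : ℕ → ℕ
  | 0 => 1
  | k + 1 => 2 * wd k ^ 2 + wd k

/-- The loss for `k` occurrences. -/
def bt (c : ℕ) : ℕ → ℕ → ℕ
  | 0, N => N
  | k + 1, N => bt c k N + win c (bt c k (bt c k (bt c k N)) + 1) (2 ^ (2 * N))

theorem one_le_wd (k : ℕ) : 1 ≤ wd k := by
  induction k with
  | zero => exact le_rfl
  | succ k ih =>
    rw [wd]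
    omega

theorem filter_split (L : List (Fin n)) (P : Fin n → Prop) [DecidablePred P] :
    (L.filter fun y => P y).length + (L.filter fun y => ¬ P y).length = L.length := by
  have := List.length_eq_length_filter_add (l := L) (fun y => decide (P y))
  rw [this]
  congr 2
  apply List.filter_congr
  intro y _
  simp

/-- **The Ramsey lemma.** -/
theorem ramsey {c k₀ R : ℕ} (hp : ∀ G : Fm n, Cl c k₀ R G → G.poly ≠ 0 → aeval p G.poly ≠ 0)
    (S : Finset (Fin n)) (k : ℕ) : ∀ (G : Fm n) (N : ℕ) (L : List (Fin n)), Cl c k₀ R G →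
    L.Pairwise (· < ·) → (∀ l ∈ L, G.occ l ≤ k) → bt c k N ≤ L.length →
    ∃ L' : List (Fin n), L'.Sublist L ∧ L'.length = N ∧ Rep p (wd k) L' (res p S G.poly) := by
  classical
  induction k with
  | zero =>
    intro G N L hG hL hocc hN
    refine ⟨L.take N, List.take_sublist _ _, ?_, ?_⟩
    · rw [List.length_take]
      exact min_eq_left hN
    · apply rep_const
      intro v hv
      exact EA_res_occ p S (Nat.le_zero.1 (hocc v ((List.take_sublist _ _).subset hv)))
  | succ k ih =>
    intro G N L hG hL hocc hN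
    have hw := one_le_wd k
    set F' := G.clean with hF'
    have hF'le : Le c F' G := clean_le c G
    have hF'cl : Cl c k₀ R F' := hG.le hF'le
    have hF'nz : F'.Nz := nz_clean G
    have hocc' : ∀ l ∈ L, F'.occ l ≤ k + 1 := fun l hl => (hF'le.occ l).trans (hocc l hl)
    rw [← poly_clean G, ← hF']
    have hsplit := filter_split L fun l => F'.occ l ≤ k
    rw [bt] at hN
    by_cases h1 : bt c k N ≤ (L.filter fun l => F'.occ l ≤ k).length
    · obtain ⟨L', a1, a2, a3⟩ := ih F' N _ hF'cl (hL.sublist List.filter_sublist)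
        (fun l hl => by simpa using (List.mem_filter.1 hl).2) h1
      refine ⟨L', a1.trans List.filter_sublist, a2, a3.weaken p ?_⟩
      rw [wd]
      omega
    set L2 := L.filter fun l => ¬ F'.occ l ≤ k with hL2
    have hL2s : L2.Sublist L := List.filter_sublist
    have hL2p : L2.Pairwise (· < ·) := hL.sublist hL2s
    have hL2o : ∀ l ∈ L2, F'.occ l = k + 1 := by
      intro l hl
      have h2 : ¬ F'.occ l ≤ k := by simpa using (List.mem_filter.1 hl).2
      have := hocc' l (hL2s.subset hl)
      omega
    set N0 := bt c k (bt c k (bt c k N)) + 1 with hN0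
    have hlen : win c N0 (2 ^ (2 * N)) ≤ L2.length := by omega
    set V := L2.toFinset with hV
    have hVc : V.card = L2.length := List.toFinset_card_of_nodup (nodup_of_lt hL2p)
    by_cases hM : ∀ g, Sub g F' → (mix V (k + 1) g).card < N0
    · obtain ⟨L1, a1, a2, a3, a4⟩ := (exists_catK p (Nat.le_add_left 1 k) (by omega) hp S _ F' V
        hF'cl hF'nz (fun v hv => hL2o v (List.mem_toFinset.1 hv)) hM
        (by rw [hVc]; exact hlen)).rep
      obtain ⟨L', b1, b2, b3, b4⟩ := rep_mono p a1 a4 (N := N) (by rw [a3]; omega)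
      refine ⟨L', sublist_of_subset (fun v hv => hL2s.subset (List.mem_toFinset.1
        (a2 v (b1 v hv)))) b2 hL, b3, b4.weaken p ?_⟩
      rw [wd]
      nlinarith
    · push Not at hM
      obtain ⟨g, hg, hgN⟩ := hM
      obtain ⟨H1, H0, h2, h3, h4, h5, h6⟩ := hg.affine c
      set L3 := L2.filter fun l => 0 < g.occ l ∧ g.occ l < k + 1 with hL3
      have hL3s : L3.Sublist L2 := List.filter_sublist
      have hL3p : L3.Pairwise (· < ·) := hL2p.sublist hL3s
      have hL3o : ∀ l ∈ L3, (0 < g.occ l ∧ g.occ l < k + 1) ∧ F'.occ l = k + 1 := by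
        intro l hl
        refine ⟨by simpa using (List.mem_filter.1 hl).2, hL2o l (hL3s.subset hl)⟩
      have hL3c : bt c k (bt c k (bt c k N)) ≤ L3.length := by
        have h7 : mix V (k + 1) g ⊆ L3.toFinset := by
          intro v hv
          rw [mix, Finset.mem_filter] at hv
          rw [List.mem_toFinset, hL3, List.mem_filter]
          exact ⟨List.mem_toFinset.1 hv.1, by simpa using hv.2⟩
        have h8 := Finset.card_le_card h7
        rw [List.toFinset_card_of_nodup (nodup_of_lt hL3p)] at h8
        omega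
      obtain ⟨L4, a1, a2, a3⟩ := ih g _ L3 (hF'cl.le (hg.le c)) hL3p (fun l hl => by
        have := hL3o l hl
        omega) hL3c
      have hL4p := hL3p.sublist a1
      obtain ⟨L5, b1, b2, b3⟩ := ih H1 _ L4 (hF'cl.le h2) hL4p (fun l hl => by
        have := hL3o l (a1.subset hl)
        have := h4 l
        omega) a2.ge
      have hL5p := hL4p.sublist b1
      obtain ⟨L6, d1, d2, d3⟩ := ih H0 _ L5 (hF'cl.le h3) hL5p (fun l hl => by
        have := hL3o l (a1.subset (b1.subset hl))
        have := h5 l
        omega) b2.ge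
      refine ⟨L6, d1.trans (b1.trans (a1.trans (hL3s.trans hL2s))), d2, ?_⟩
      have e1 := (a3.sublist p (nodup_of_lt hL3p |>.sublist a1) (d1.trans b1))
      have e2 := (b3.sublist p (nodup_of_lt hL5p) d1)
      have e3 := d3.affine p (α := -1) (β := 0) (fun v _ => by rw [map_neg, map_one])
        (fun v _ => map_zero _)
      have e4 := ((rep_const p L6 (R := (-1 : MvPolynomial (Fin n) F)) (fun v _ => by
        rw [map_neg, map_one])).mul p d3)
      have e5 := ((e2.add p e4).mul p e1).add p d3
      rw [h6, map_add, map_mul, map_sub]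
      have e6 : (res p S H1.poly + -1 * res p S H0.poly) * res p S g.poly + res p S H0.poly =
          (res p S H1.poly - res p S H0.poly) * res p S g.poly + res p S H0.poly := by
        ring
      rw [← e6]
      refine e5.weaken p ?_
      rw [wd]
      nlinarith

/-- Formulas with bounded reads are products of matrices of bounded width. -/
theorem rp_fm {c k R : ℕ} (hp : ∀ G : Fm n, Cl c k R G → G.poly ≠ 0 → aeval p G.poly ≠ 0)
    {G : Fm n} (hG : Cl c k R G) : RP p (wd k) (bt c k) G.poly := by
  intro S N L hL hN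
  exact ramsey p hp S k G N L hG hL (fun l _ => hG.occ l) hN

end

end Pool.Agent.Helper62.RK
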