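import Mathlib
import Pool.Agent.Helper62.RK.Ram
import Pool.Agent.Helper91.Ov.Hit

/-!
# The generator hits read-k formulas of bounded rank
-/

set_option autoImplicit false
set_option linter.unusedSectionVars false

namespace Pool.Agent.Helper62.RK

open MvPolynomial Fm
open Pool.Agent.Helper91.Ov (Supp Rep rep_const RP gp Hit pF pF_eq pF_ne_zero gp_ne_zero_of_res
  constantCoeff_gp KP zK wK Clo clo_hit PP)
open Pool.Agent.Helper91.RO (res EA ev ev_res)
open Pool.Agent.Helper28.D4 (G)

variable {n : ℕ}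

/-! ### Closure of `RP` -/

section

variable {F : Type*} [Field F] [Algebra ℂ F] (p : Fin n → F)

theorem RP.weaken {w w' : ℕ} {β : ℕ → ℕ} {f : MvPolynomial (Fin n) ℂ} (h : RP p w β f)
    (hw : w ≤ w') : RP p w' β f := by
  intro S N L hL hN
  obtain ⟨L', h1, h2, h3⟩ := h S N L hL hN
  exact ⟨L', h1, h2, h3.weaken p hw⟩

theorem RP.add {w w' : ℕ} {β β' : ℕ → ℕ} {f g : MvPolynomial (Fin n) ℂ} (hf : RP p w β f)
    (hg : RP p w' β' g) : RP p (w + w') (fun N => β (β' N)) (f + g) := by
  intro S N L hL hN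
  obtain ⟨L1, a1, a2, a3⟩ := hf S (β' N) L hL hN
  obtain ⟨L2, b1, b2, b3⟩ := hg S N L1 (hL.sublist a1) a2.ge
  refine ⟨L2, b1.trans a1, b2, ?_⟩
  rw [map_add]
  exact (a3.sublist p (Pool.Agent.Helper91.Ov.nodup_of_lt (hL.sublist a1)) b1).add p b3

theorem RP.mul {w w' : ℕ} {β β' : ℕ → ℕ} {f g : MvPolynomial (Fin n) ℂ} (hf : RP p w β f)
    (hg : RP p w' β' g) : RP p (w * w') (fun N => β (β' N)) (f * g) := by
  intro S N L hL hN
  obtain ⟨L1, a1, a2, a3⟩ := hf S (β' N) L hL hN
  obtain ⟨L2, b1, b2, b3⟩ := hg S N L1 (hL.sublist a1) a2.ge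
  refine ⟨L2, b1.trans a1, b2, ?_⟩
  rw [map_mul]
  exact (a3.sublist p (Pool.Agent.Helper91.Ov.nodup_of_lt (hL.sublist a1)) b1).mul p b3

theorem RP.neg {w : ℕ} {β : ℕ → ℕ} {f : MvPolynomial (Fin n) ℂ} (hf : RP p w β f) :
    RP p w β (-f) := by
  intro S N L hL hN
  obtain ⟨L1, a1, a2, a3⟩ := hf S N L hL hN
  refine ⟨L1, a1, a2, ?_⟩
  have h := (rep_const p L1 (R := (-1 : MvPolynomial (Fin n) F)) (fun v _ => by
        rw [map_neg, map_one])).mul p a3
  rw [one_mul, neg_one_mul] at h
  rwa [map_neg]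

theorem RP.sub {w w' : ℕ} {β β' : ℕ → ℕ} {f g : MvPolynomial (Fin n) ℂ} (hf : RP p w β f)
    (hg : RP p w' β' g) : RP p (w + w') (fun N => β (β' N)) (f - g) := by
  rw [sub_eq_add_neg]
  exact RP.add p hf (RP.neg p hg)

end

/-! ### Levels of the generator -/

/-- Nonzero on the generator with `m` seeds. -/
def NZ (m : ℕ) (f : MvPolynomial (Fin n) ℂ) : Prop := aeval (gp n m) f ≠ 0

theorem res_empty {F : Type*} [Field F] [Algebra ℂ F] (p : Fin n → F)
    (f : MvPolynomial (Fin n) ℂ) : res p ∅ f = C (aeval p f) := by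
  have h : res p ∅ = (IsScalarTower.toAlgHom ℂ F (MvPolynomial (Fin n) F)).comp (aeval p) := by
    apply MvPolynomial.algHom_ext
    intro l
    rw [AlgHom.comp_apply, aeval_X, res, aeval_X, if_neg (Finset.notMem_empty l)]
    rfl
  exact congrArg (fun ψ => ψ f) h

theorem NZ.mono {m m' : ℕ} (h : m ≤ m') {f : MvPolynomial (Fin n) ℂ} (hf : NZ m f) : NZ m' f := by
  obtain ⟨K, rfl⟩ := Nat.exists_eq_add_of_le' h
  have h1 := pF_ne_zero hf
  refine gp_ne_zero_of_res (∅ : Finset (Fin n)) (by rw [Finset.card_empty]; exact Nat.zero_le K)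
    (fun j : Fin m => zK j) (fun j => wK j) ?_
  rw [← pF_eq, res_empty]
  intro h2
  exact h1 (C_eq_zero.1 h2)

theorem hit_iff {m : ℕ} {f : MvPolynomial (Fin n) ℂ} :
    Hit m f ↔ (f = C (constantCoeff f) ∨ NZ m (f - C (constantCoeff f))) := by
  unfold Hit NZ
  rw [map_sub, aeval_C, MvPolynomial.algebraMap_eq, sub_ne_zero]

theorem hit_mono {m m' : ℕ} (h : m ≤ m') {f : MvPolynomial (Fin n) ℂ} (hf : Hit m f) :
    Hit m' f := by
  rw [hit_iff] at hf ⊢
  exact hf.imp id fun h1 => h1.mono h

theorem hit_add {m : ℕ} {s t : Finset (Fin n)} (hst : Disjoint s t)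
    {f g : MvPolynomial (Fin n) ℂ} (hf : Supp s f) (hg : Supp t g) (h1 : Hit m f)
    (h2 : Hit m g) : Hit m (f + g) := by
  classical
  exact clo_hit (B := fun s f => Supp s f ∧ Hit m f) (fun s f h => h.1) (fun s f h => h.2)
    (Clo.add hst (Clo.base ⟨hf, h1⟩) (Clo.base ⟨hg, h2⟩))

theorem hit_mul {m : ℕ} {f g : MvPolynomial (Fin n) ℂ} (ihf : Hit m f) (ihg : Hit m g) :
    Hit m (f * g) := by
  rcases ihf with h1 | h1
  · rcases ihg with h2 | h2
    · left
      rw [map_mul, map_mul, ← h1, ← h2]
    · rcases eq_or_ne (MvPolynomial.constantCoeff f) 0 with h4 | h4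
      · left
        rw [h4, C_0] at h1
        rw [h1, zero_mul, map_zero, map_zero]
      · right
        intro h3
        apply h2
        rw [h1, map_mul, map_mul, map_mul, constantCoeff_C, aeval_C,
          MvPolynomial.algebraMap_eq] at h3
        exact mul_left_cancel₀ (C_ne_zero.2 h4) h3
  · rcases ihg with h2 | h2
    · rcases eq_or_ne (MvPolynomial.constantCoeff g) 0 with h4 | h4
      · left
        rw [h4, C_0] at h2
        rw [h2, mul_zero, map_zero, map_zero]
      · right
        intro h3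
        apply h1
        rw [h2, map_mul, map_mul, map_mul, constantCoeff_C, aeval_C,
          MvPolynomial.algebraMap_eq] at h3
        exact mul_right_cancel₀ (C_ne_zero.2 h4) h3
    · right
      intro h3
      rw [map_mul (aeval (gp n m)), map_mul MvPolynomial.constantCoeff] at h3
      have hcf := constantCoeff_gp (m := m) f
      have hcg := constantCoeff_gp (m := m) g
      by_cases h4 : MvPolynomial.constantCoeff f * MvPolynomial.constantCoeff g = 0
      · rw [h4, map_zero] at h3
        rcases mul_eq_zero.1 h3 with h5 | h5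
        · rw [h5, map_zero] at hcf
          apply h1
          rw [h5, ← hcf, map_zero]
        · rw [h5, map_zero] at hcg
          apply h2
          rw [h5, ← hcg, map_zero]
      · have hu : IsUnit (aeval (gp n m) f) := by
          apply isUnit_of_mul_isUnit_left (y := aeval (gp n m) g)
          rw [h3]
          exact (isUnit_iff_ne_zero.2 h4).map C
        obtain ⟨r, _, hr⟩ := MvPolynomial.isUnit_iff_eq_C_of_isReduced.1 hu
        apply h1
        rw [hr, constantCoeff_C] at hcf
        rw [hr, hcf]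

/-- Polynomials in few variables. -/
theorem few_vars {c : ℕ} {t : Finset (Fin n)} (ht : t.card ≤ c) {f : MvPolynomial (Fin n) ℂ}
    (hf : Supp t f) (h0 : f ≠ 0) : NZ c f := by
  have h3 : res (G n 0 (fun j : Fin 0 => (0 : ℂ)) (fun j => 0)) t f ≠ 0 := by
    have h4 := hf.congr (res (G n 0 (fun j : Fin 0 => (0 : ℂ)) (fun j => 0)) t)
      (AlgHom.id ℂ (MvPolynomial (Fin n) ℂ)) (by
        intro i hi
        rw [res, aeval_X, if_pos hi, AlgHom.id_apply])
    rw [h4]
    exact h0
  have h5 := gp_ne_zero_of_res t ht _ _ h3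
  exact h5

/-! ### Differences -/

/-- The difference `f - f|_{x_i = 0}`. -/
noncomputable def df (i : Fin n) (f : MvPolynomial (Fin n) ℂ) : MvPolynomial (Fin n) ℂ :=
  f - zr {i} f

theorem zr_supp {s : Finset (Fin n)} {t : Finset (Fin n)} {f : MvPolynomial (Fin n) ℂ}
    (hf : Supp t f) (hst : Disjoint s t) : zr s f = f := by
  have h := hf.congr (zr s) (AlgHom.id ℂ (MvPolynomial (Fin n) ℂ)) (by
    intro i hi
    rw [zr, aeval_X, if_neg (Finset.disjoint_right.1 hst hi), AlgHom.id_apply])
  exact h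

theorem zr_occ {F : Fm n} {i : Fin n} (h : F.occ i = 0) : zr {i} F.poly = F.poly := by
  apply zr_supp F.supp_vars
  rw [Finset.disjoint_singleton_left, mem_vars_iff]
  omega

theorem zr_insert (a : Fin n) (s : Finset (Fin n)) (f : MvPolynomial (Fin n) ℂ) :
    zr (insert a s) f = zr {a} (zr s f) := by
  have h : zr (insert a s) = (zr {a}).comp (zr s) := by
    apply MvPolynomial.algHom_ext
    intro l
    rw [AlgHom.comp_apply, zr, zr, zr, aeval_X, aeval_X]
    by_cases hl : l ∈ s
    · rw [if_pos (Finset.mem_insert_of_mem hl), if_pos hl, map_zero]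
    · rw [if_neg hl, aeval_X]
      by_cases hla : l = a
      · subst hla
        rw [if_pos (Finset.mem_insert_self l s), if_pos (Finset.mem_singleton_self l)]
      · rw [if_neg, if_neg]
        · rwa [Finset.mem_singleton]
        · rw [Finset.mem_insert]
          tauto
  exact congrArg (fun ψ => ψ f) h

theorem zr_of_df {s : Finset (Fin n)} {f : MvPolynomial (Fin n) ℂ}
    (h : ∀ i ∈ s, df i f = 0) : zr s f = f := by
  classical
  induction s using Finset.induction_on with
  | empty =>
    have h1 : zr (∅ : Finset (Fin n)) = AlgHom.id ℂ _ := by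
      apply MvPolynomial.algHom_ext
      intro l
      rw [zr, aeval_X, if_neg (Finset.notMem_empty l), AlgHom.id_apply]
    rw [h1, AlgHom.id_apply]
  | insert a s ha ih =>
    rw [zr_insert, ih fun i hi => h i (Finset.mem_insert_of_mem hi)]
    exact (sub_eq_zero.1 (h a (Finset.mem_insert_self a s))).symm

/-- A nonzero difference gives a nonconstant polynomial on the next level. -/
theorem hit_of_df {m : ℕ} {i : Fin n} {f : MvPolynomial (Fin n) ℂ} (h : NZ m (df i f)) :
    Hit (m + 1) f := by
  right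
  intro h1
  set a := constantCoeff f with ha
  have h2 : aeval (gp n (1 + m)) (f - C a) = 0 := by
    rw [add_comm 1 m, map_sub, h1, aeval_C, MvPolynomial.algebraMap_eq, sub_self]
  have h3 : res (pF n m) {i} (f - C a) = 0 := by
    by_contra hne
    rw [pF_eq] at hne
    exact gp_ne_zero_of_res {i} (by rw [Finset.card_singleton]) _ _ hne h2
  apply pF_ne_zero h
  have h4 : aeval (pF n m) (f - C a) = 0 := by
    rw [← ev_res (pF n m) {i}, h3, map_zero]
  have h5 : aeval (pF n m) (zr {i} (f - C a)) = 0 := by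
    let ψ : MvPolynomial (Fin n) (KP m) →ₐ[KP m] KP m :=
      aeval fun l => if l ∈ ({i} : Finset (Fin n)) then 0 else pF n m l
    have h6 : (ψ.restrictScalars ℂ).comp (res (pF n m) {i}) = (aeval (pF n m)).comp (zr {i}) := by
      apply MvPolynomial.algHom_ext
      intro l
      rw [AlgHom.comp_apply, AlgHom.comp_apply, AlgHom.restrictScalars_apply, res, zr, aeval_X,
        aeval_X]
      by_cases hl : l ∈ ({i} : Finset (Fin n))
      · rw [if_pos hl, if_pos hl, map_zero, aeval_X, if_pos hl]
      · rw [if_neg hl, if_neg hl, aeval_X]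
        exact (aeval_C _ _).trans rfl
    have h7 := congrArg (fun φ => φ (f - C a)) h6
    simp only [AlgHom.comp_apply] at h7
    rw [← h7, h3, map_zero]
  have h8 : df i f = (f - C a) - zr {i} (f - C a) := by
    rw [df, map_sub]
    have h9 : zr {i} (C a : MvPolynomial (Fin n) ℂ) = C a := by
      rw [zr, aeval_C, MvPolynomial.algebraMap_eq]
    rw [h9]
    ring
  rw [h8, map_sub, h4, h5, sub_self]

/-! ### The levels -/

/-- The number of seeds for differences of combinations of two formulas. -/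
def tt (c k : ℕ) : ℕ := (bt c k)^[4] (4 * wd k ^ 2)

/-- The level for rank `0`. -/
def base (c : ℕ) : ℕ → ℕ
  | 0 => c
  | k + 1 => tt c k + (base c k + 1)

/-- The levels. -/
def lev (c k ρ : ℕ) : ℕ := base c k + (k + 1) * ρ

theorem lev_mono {c k ρ ρ' : ℕ} (h : ρ ≤ ρ') : lev c k ρ ≤ lev c k ρ' :=
  Nat.add_le_add_left (Nat.mul_le_mul_left _ h) _

theorem lev_lt {c k ρ ρ' : ℕ} (h : ρ + 1 ≤ ρ') : lev c k ρ + 1 ≤ lev c k ρ' := by
  refine le_trans ?_ (lev_mono h)
  rw [lev, lev, mul_add, mul_one]
  omega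

theorem lev_succ (c k ρ : ℕ) : tt c k + (lev c k ρ + 1) ≤ lev c (k + 1) ρ := by
  rw [lev, lev, base]
  have : (k + 1) * ρ ≤ (k + 1 + 1) * ρ := Nat.mul_le_mul_right _ (Nat.le_succ _)
  omega

/-- The level for the rank `r`. -/
def hl (c k r : ℕ) : ℕ := lev c k (r / 2) + r % 2

theorem hl_mono {c k r r' : ℕ} (h : r ≤ r') : hl c k r ≤ hl c k r' := by
  rw [hl, hl]
  rcases Nat.lt_or_ge (r / 2) (r' / 2) with h1 | h1
  · have := lev_lt (c := c) (k := k) h1
    omega
  · have h2 : r / 2 = r' / 2 := by omega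
    rw [h2]
    omega

theorem hl_le {c k r ρ : ℕ} (h : r ≤ 2 * ρ + 1) : hl c k r ≤ lev c k ρ + 1 := by
  have h1 := hl_mono (c := c) (k := k) h
  have h2 : (2 * ρ + 1) / 2 = ρ := by omega
  have h3 : (2 * ρ + 1) % 2 = 1 := by omega
  have h4 : hl c k (2 * ρ + 1) = lev c k ρ + 1 := by
    rw [hl, h2, h3]
  rwa [h4] at h1

/-- Nonzero polynomials close to the generator. -/
theorem near {c k R B : ℕ} (hB : ∀ F : Fm n, Cl c k R F → F.poly ≠ 0 → NZ B F.poly)
    {f : MvPolynomial (Fin n) ℂ}
    (hf : (∀ F : Fm n, Cl c k R F → RP (pF n B) (wd k) (bt c k) F.poly) →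
      RP (pF n B) (4 * wd k ^ 2) ((bt c k)^[4]) f) (h0 : f ≠ 0) : NZ (tt c k + B) f := by
  have h1 := hf fun F hF => rp_fm (pF n B) (fun F' hF' h => pF_ne_zero (hB F' hF' h)) hF
  obtain ⟨S, -, hS, h2⟩ := h1.bounded_support _ h0 ∅
  rw [Finset.card_empty, zero_add] at hS
  rw [pF_eq] at h2
  exact gp_ne_zero_of_res S hS _ _ h2

theorem near_add {c k R B : ℕ} (hB : ∀ F : Fm n, Cl c k R F → F.poly ≠ 0 → NZ B F.poly)
    {f g : Fm n} (hf : Cl c k R f) (hg : Cl c k R g) {i : Fin n}
    (h0 : df i (f.poly + g.poly) ≠ 0) : NZ (tt c k + B) (df i (f.poly + g.poly)) := by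
  apply near hB _ h0
  intro hrp
  have h1 := hrp f hf
  have h2 := hrp g hg
  have h3 := hrp (f.kl {i}) (hf.le (kl_le c _ f))
  have h4 := hrp (g.kl {i}) (hg.le (kl_le c _ g))
  have e : df i (f.poly + g.poly) = (f.poly + g.poly) - ((f.kl {i}).poly + (g.kl {i}).poly) := by
    rw [df, map_add, poly_kl, poly_kl]
  rw [e]
  have h5 := RP.sub _ (RP.add _ h1 h2) (RP.add _ h3 h4)
  refine RP.weaken _ h5 ?_
  have := one_le_wd k
  nlinarith

theorem near_mul {c k R B : ℕ} (hB : ∀ F : Fm n, Cl c k R F → F.poly ≠ 0 → NZ B F.poly)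
    {f g : Fm n} (hf : Cl c k R f) (hg : Cl c k R g) {i : Fin n}
    (h0 : df i (f.poly * g.poly) ≠ 0) : NZ (tt c k + B) (df i (f.poly * g.poly)) := by
  apply near hB _ h0
  intro hrp
  have h1 := hrp f hf
  have h2 := hrp g hg
  have h3 := hrp (f.kl {i}) (hf.le (kl_le c _ f))
  have h4 := hrp (g.kl {i}) (hg.le (kl_le c _ g))
  have e : df i (f.poly * g.poly) = (f.poly * g.poly) - ((f.kl {i}).poly * (g.kl {i}).poly) := by
    rw [df, map_mul, poly_kl, poly_kl]
  rw [e]
  have h5 := RP.sub _ (RP.mul _ h1 h2) (RP.mul _ h3 h4)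
  refine RP.weaken _ h5 ?_
  have := one_le_wd k
  nlinarith

/-- A formula which does not depend on its full variables has fewer reads. -/
theorem kill {c k : ℕ} {F : Fm n} (hocc : ∀ i, F.occ i ≤ k + 1)
    (hD : ∀ i, F.occ i = k + 1 → df i F.poly = 0) :
    ∃ F' : Fm n, Le c F' F ∧ (∀ i, F'.occ i ≤ k) ∧ F'.poly = F.poly := by
  classical
  set s : Finset (Fin n) := Finset.univ.filter fun i => F.occ i = k + 1 with hs
  refine ⟨F.kl s, kl_le c s F, fun i => ?_, ?_⟩
  · by_cases hi : i ∈ s
    · rw [occ_kl_mem s F hi]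
      exact Nat.zero_le k
    · have h1 := occ_kl s F i
      have h2 : F.occ i ≠ k + 1 := fun h => hi (Finset.mem_filter.2 ⟨Finset.mem_univ i, h⟩)
      have h3 := hocc i
      omega
  · rw [poly_kl]
    exact zr_of_df fun i hi => hD i (Finset.mem_filter.1 hi).2

/-- The statement of the level induction. -/
def Lv (c k : ℕ) (F : Fm n) : Prop :=
  ((∃ i, F.occ i = k ∧ df i F.poly ≠ 0) →
    ∃ i, F.occ i = k ∧ NZ (lev c k (F.rank / 2)) (df i F.poly)) ∧
  Hit (hl c k F.rank) F.poly

theorem df_add_left {f g : Fm n} {i : Fin n} (h : g.occ i = 0) :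
    df i (f.poly + g.poly) = df i f.poly := by
  rw [df, df, map_add, zr_occ h]
  ring

theorem df_mul_left {f g : Fm n} {i : Fin n} (h : g.occ i = 0) :
    df i (f.poly * g.poly) = df i f.poly * g.poly := by
  rw [df, df, map_mul, zr_occ h]
  ring

theorem NZ.mul {m : ℕ} {f g : MvPolynomial (Fin n) ℂ} (hf : NZ m f) (hg : NZ m g) :
    NZ m (f * g) := by
  unfold NZ
  rw [map_mul]
  exact mul_ne_zero hf hg

/-- One factor of a product gate. -/
theorem mul_factor {c k : ℕ} (ihk : ∀ F : Fm n, F.LB c → (∀ i, F.occ i ≤ k) → Lv c k F)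
    {g : Fm n} (hlb : g.LB c) (hocc : ∀ i, g.occ i ≤ k + 1) (hg : Lv c (k + 1) g)
    (h0 : g.poly ≠ 0) {r : ℕ} (hr : g.rank ≤ r)
    (h : g.rank % 2 = 0 ∨ g.rank + 1 ≤ r ∨ ∀ i, g.occ i = k + 1 → df i g.poly = 0) :
    NZ (lev c (k + 1) (r / 2)) g.poly := by
  by_cases h1 : g.rank % 2 = 0 ∨ g.rank + 1 ≤ r
  · refine NZ.mono ?_ (hg.2.ne_zero h0)
    rw [hl]
    by_cases h2 : g.rank % 2 = 0
    · rw [h2, add_zero]
      exact lev_mono (by omega)
    · have h3 : g.rank / 2 + 1 ≤ r / 2 := by omega
      have := lev_lt (c := c) (k := k + 1) h3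
      omega
  · have h2 : ∀ i, g.occ i = k + 1 → df i g.poly = 0 := by tauto
    obtain ⟨g', a1, a2, a3⟩ := kill (c := c) hocc h2
    rw [← a3] at h0 ⊢
    refine NZ.mono ?_ ((ihk g' (a1.lb hlb) a2).2.ne_zero h0)
    have h3 := hl_le (c := c) (k := k) (r := g'.rank) (ρ := r / 2) (by
      have := a1.rank
      omega)
    have h4 := lev_succ c k (r / 2)
    omega

theorem level (c k : ℕ) : ∀ F : Fm n, F.LB c → (∀ i, F.occ i ≤ k) → Lv c k F := by
  classical
  induction k with
  | zero =>
    intro F _ hocc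
    refine ⟨?_, ?_⟩
    · rintro ⟨i, hi, h⟩
      exfalso
      apply h
      rw [df, zr_occ hi, sub_self]
    · left
      have h1 : F.vars = ∅ := by
        rw [Finset.eq_empty_iff_forall_notMem]
        intro i hi
        rw [mem_vars_iff] at hi
        have := hocc i
        omega
      have h2 := F.supp_vars
      rw [h1] at h2
      unfold Supp at h2
      rw [Finset.coe_empty, supported_empty, Algebra.mem_bot] at h2
      obtain ⟨a, ha⟩ := h2
      rw [← ha, MvPolynomial.algebraMap_eq, constantCoeff_C]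
  | succ k ihk =>
    intro F
    -- formulas with fewer reads
    have hB : ∀ ρ, ∀ G : Fm n, Cl c k (2 * ρ + 1) G → G.poly ≠ 0 →
        NZ (lev c k ρ + 1) G.poly := fun ρ G hG h0 =>
      NZ.mono (hl_le hG.rank) ((ihk G hG.lb hG.occ).2.ne_zero h0)
    -- not all full variables are inessential or the formula has fewer reads
    have hkill : ∀ G : Fm n, G.LB c → (∀ i, G.occ i ≤ k + 1) →
        ¬ (∃ i, G.occ i = k + 1 ∧ df i G.poly ≠ 0) → ∃ G' : Fm n, ∀ ρ, G.rank ≤ 2 * ρ + 1 →
        Cl c k (2 * ρ + 1) G' ∧ G'.poly = G.poly := by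
      intro G hlb hocc hD
      push Not at hD
      obtain ⟨G', a1, a2, a3⟩ := kill (c := c) hocc hD
      exact ⟨G', fun ρ hρ => ⟨⟨a1.lb hlb, a2, a1.rank.trans hρ⟩, a3⟩⟩
    induction F with
    | leaf T =>
      intro hlb hocc
      have hc : c ≤ lev c (k + 1) 0 := by
        have h1 : ∀ k, c ≤ base c k := by
          intro k
          induction k with
          | zero => exact le_rfl
          | succ k ih => rw [base]; omega
        rw [lev, mul_zero, add_zero]
        exact h1 _
      refine ⟨?_, ?_⟩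
      · rintro ⟨i, hi, h⟩
        refine ⟨i, hi, NZ.mono (hc.trans (lev_mono (Nat.zero_le _))) ?_⟩
        refine few_vars hlb ?_ h
        have h1 : Supp T.vars T := mem_supported.2 (Set.Subset.refl _)
        have h2 : Supp T.vars (zr {i} T) := by
          apply Supp.mono (s := (zr {i} T).vars)
          · exact mem_supported.2 (Set.Subset.refl _)
          · exact (vars_zr {i} T).trans Finset.sdiff_subset
        exact sub_mem h1 h2
      · refine hit_mono (hc.trans ?_) (Pool.Agent.Helper91.Ov.leaf_hit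
          (⟨T.vars, Finset.Subset.refl _, hlb, mem_supported.2 (Set.Subset.refl _)⟩ :
            Pool.Agent.Helper91.Ov.Leaf c T.vars T))
        rw [hl, Fm.rank]
        exact Nat.le_add_right _ _
    | add f g ihf ihg =>
      intro hlb hocc
      have hof : ∀ i, f.occ i ≤ k + 1 := fun i => le_trans (Nat.le_add_right _ _) (hocc i)
      have hog : ∀ i, g.occ i ≤ k + 1 := fun i => le_trans (Nat.le_add_left _ _) (hocc i)
      have Lf := ihf hlb.1 hof
      have Lg := ihg hlb.2 hog
      have hrk := rank_add_le f g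
      have hP : (∃ i, (Fm.add f g).occ i = k + 1 ∧ df i (Fm.add f g).poly ≠ 0) →
          ∃ i, (Fm.add f g).occ i = k + 1 ∧
            NZ (lev c (k + 1) ((Fm.add f g).rank / 2)) (df i (Fm.add f g).poly) := by
        rintro ⟨i, hi, h⟩
        by_cases hDf : ∃ i, f.occ i = k + 1 ∧ df i f.poly ≠ 0
        · obtain ⟨j, hj, h1⟩ := Lf.1 hDf
          have h2 := hocc j
          rw [Fm.occ] at h2
          have h3 : g.occ j = 0 := by omega
          refine ⟨j, by rw [Fm.occ, hj, h3], ?_⟩
          rw [Fm.poly, df_add_left h3]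
          exact NZ.mono (lev_mono (by omega)) h1
        by_cases hDg : ∃ i, g.occ i = k + 1 ∧ df i g.poly ≠ 0
        · obtain ⟨j, hj, h1⟩ := Lg.1 hDg
          have h2 := hocc j
          rw [Fm.occ] at h2
          have h3 : f.occ j = 0 := by omega
          refine ⟨j, by rw [Fm.occ, hj, h3, zero_add], ?_⟩
          rw [Fm.poly, add_comm f.poly, df_add_left h3]
          exact NZ.mono (lev_mono (by omega)) h1
        obtain ⟨f', hf'⟩ := hkill f hlb.1 hof hDf
        obtain ⟨g', hg'⟩ := hkill g hlb.2 hog hDg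
        obtain ⟨hf1, hf2⟩ := hf' ((Fm.add f g).rank / 2) (by omega)
        obtain ⟨hg1, hg2⟩ := hg' ((Fm.add f g).rank / 2) (by omega)
        refine ⟨i, hi, NZ.mono (lev_succ c k _) ?_⟩
        rw [Fm.poly, ← hf2, ← hg2] at h ⊢
        exact near_add (hB _) hf1 hg1 h
      refine ⟨hP, ?_⟩
      by_cases hd : Disjoint f.vars g.vars
      · rw [Fm.poly]
        exact hit_add hd f.supp_vars g.supp_vars (hit_mono (hl_mono (by omega)) Lf.2)
          (hit_mono (hl_mono (by omega)) Lg.2)
      · have hodd : (Fm.add f g).rank % 2 = 1 := by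
          rw [Fm.rank, if_neg hd]
          omega
        by_cases hD : ∃ i, (Fm.add f g).occ i = k + 1 ∧ df i (Fm.add f g).poly ≠ 0
        · obtain ⟨j, -, h1⟩ := hP hD
          rw [hl, hodd]
          exact hit_of_df h1
        · push Not at hD
          obtain ⟨F', a1, a2, a3⟩ := kill (c := c) hocc hD
          rw [← a3]
          refine hit_mono ?_ (ihk F' (a1.lb hlb) a2).2
          have h3 := hl_le (c := c) (k := k) (r := F'.rank) (ρ := (Fm.add f g).rank / 2) (by
            have := a1.rank
            omega)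
          have h4 := lev_succ c k ((Fm.add f g).rank / 2)
          have h5 : hl c (k + 1) (Fm.add f g).rank = lev c (k + 1) ((Fm.add f g).rank / 2) + 1 := by
            rw [hl, hodd]
          omega
    | mul f g ihf ihg =>
      intro hlb hocc
      have hof : ∀ i, f.occ i ≤ k + 1 := fun i => le_trans (Nat.le_add_right _ _) (hocc i)
      have hog : ∀ i, g.occ i ≤ k + 1 := fun i => le_trans (Nat.le_add_left _ _) (hocc i)
      have Lf := ihf hlb.1 hof
      have Lg := ihg hlb.2 hog
      have hrk := rank_mul_le f g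
      refine ⟨?_, ?_⟩
      · rintro ⟨i, hi, h⟩
        have hfg : f.poly * g.poly ≠ 0 := by
          intro h0
          apply h
          rw [Fm.poly, h0, df, map_zero, sub_zero]
        have hf0 := left_ne_zero_of_mul hfg
        have hg0 := right_ne_zero_of_mul hfg
        have hr1 : f.rank = g.rank → f.rank % 2 = 1 → (Fm.mul f g).rank = f.rank + 1 := by
          intro h1 h2
          rw [Fm.rank, if_pos ⟨h1, h2⟩]
        -- the two cases
        have caseL : (∃ i, f.occ i = k + 1 ∧ df i f.poly ≠ 0) →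
            NZ (lev c (k + 1) ((Fm.mul f g).rank / 2)) g.poly →
            ∃ i, (Fm.mul f g).occ i = k + 1 ∧
              NZ (lev c (k + 1) ((Fm.mul f g).rank / 2)) (df i (Fm.mul f g).poly) := by
          intro hDf hNg
          obtain ⟨j, hj, h1⟩ := Lf.1 hDf
          have h2 := hocc j
          rw [Fm.occ] at h2
          have h3 : g.occ j = 0 := by omega
          refine ⟨j, by rw [Fm.occ, hj, h3], ?_⟩
          rw [Fm.poly, df_mul_left h3]
          exact (NZ.mono (lev_mono (by omega)) h1).mul hNg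
        have caseR : (∃ i, g.occ i = k + 1 ∧ df i g.poly ≠ 0) →
            NZ (lev c (k + 1) ((Fm.mul f g).rank / 2)) f.poly →
            ∃ i, (Fm.mul f g).occ i = k + 1 ∧
              NZ (lev c (k + 1) ((Fm.mul f g).rank / 2)) (df i (Fm.mul f g).poly) := by
          intro hDg hNf
          obtain ⟨j, hj, h1⟩ := Lg.1 hDg
          have h2 := hocc j
          rw [Fm.occ] at h2
          have h3 : f.occ j = 0 := by omega
          refine ⟨j, by rw [Fm.occ, hj, h3, zero_add], ?_⟩
          rw [Fm.poly, mul_comm f.poly, df_mul_left h3]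
          exact (NZ.mono (lev_mono (by omega)) h1).mul hNf
        by_cases hDf : ∃ i, f.occ i = k + 1 ∧ df i f.poly ≠ 0
        · by_cases hDg : ∃ i, g.occ i = k + 1 ∧ df i g.poly ≠ 0
          · rcases le_total g.rank f.rank with hle | hle
            · apply caseL hDf
              refine mul_factor ihk hlb.2 hog Lg hg0 (by omega) ?_
              by_cases h1 : g.rank % 2 = 0
              · exact Or.inl h1
              · right
                left
                rcases Nat.lt_or_ge g.rank f.rank with h2 | h2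
                · omega
                · have := hr1 (by omega) (by omega)
                  omega
            · apply caseR hDg
              refine mul_factor ihk hlb.1 hof Lf hf0 (by omega) ?_
              by_cases h1 : f.rank % 2 = 0
              · exact Or.inl h1
              · right
                left
                rcases Nat.lt_or_ge f.rank g.rank with h2 | h2
                · omega
                · have := hr1 (by omega) (by omega)
                  omega
          · apply caseL hDf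
            push Not at hDg
            exact mul_factor ihk hlb.2 hog Lg hg0 (by omega) (Or.inr (Or.inr hDg))
        · by_cases hDg : ∃ i, g.occ i = k + 1 ∧ df i g.poly ≠ 0
          · apply caseR hDg
            push Not at hDf
            exact mul_factor ihk hlb.1 hof Lf hf0 (by omega) (Or.inr (Or.inr hDf))
          · obtain ⟨f', hf'⟩ := hkill f hlb.1 hof hDf
            obtain ⟨g', hg'⟩ := hkill g hlb.2 hog hDg
            obtain ⟨hf1, hf2⟩ := hf' ((Fm.mul f g).rank / 2) (by omega)
            obtain ⟨hg1, hg2⟩ := hg' ((Fm.mul f g).rank / 2) (by omega)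
            refine ⟨i, hi, NZ.mono (lev_succ c k _) ?_⟩
            rw [Fm.poly, ← hf2, ← hg2] at h ⊢
            exact near_mul (hB _) hf1 hg1 h
      · rw [Fm.poly]
        exact hit_mul (hit_mono (hl_mono (by omega)) Lf.2) (hit_mono (hl_mono (by omega)) Lg.2)

/-- **The generator hits read-k formulas of bounded rank.** -/
theorem cl_hit {c k R : ℕ} {F : Fm n} (hF : Cl c k R F) : Hit (hl c k R) F.poly :=
  hit_mono (hl_mono hF.rank) (level c k F hF.lb hF.occ).2

theorem cl_hp (c k R : ℕ) (F : Fm n) (hF : Cl c k R F) (h0 : F.poly ≠ 0) :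
    aeval (pF n (hl c k R)) F.poly ≠ 0 := pF_ne_zero ((cl_hit hF).ne_zero h0)

end Pool.Agent.Helper62.RK
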