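import Mathlib
import Pool.Agent.Helper62.RK.Lev

/-!
# Formulas as polynomials in few variables and few smaller formulas
-/

set_option autoImplicit false
set_option linter.unusedSectionVars false

namespace Pool.Agent.Helper62.RK

open MvPolynomial Fm
open Pool.Agent.Helper91.Ov (Supp Rep rep_const rep_sum RP many_rp rp_leaf rp_det Leaf)
open Pool.Agent.Helper91.RO (res EA ev ev_res)

variable {n : ℕ}

/-- The number of occurrences of the variables of `T`. -/
noncomputable def occs (T : Finset (Fin n)) (F : Fm n) : ℕ := ∑ v ∈ T, F.occ v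

theorem exists_dec (c : ℕ) (T : Finset (Fin n)) (F : Fm n) :
    ∃ (ι : Type) (_ : Fintype ι) (g : ι → Fm n) (u : ι → MvPolynomial (Fin n) ℂ)
      (Z : Finset (Fin n)), Fintype.card ι ≤ 2 ^ occs T F ∧ (F.LB c → Z.card ≤ occs T F * c) ∧
      (∀ a, Le c (g a) F) ∧ (∀ a, ∀ v ∈ T, (g a).occ v = 0) ∧ (∀ a, Supp Z (u a)) ∧
      ∑ a, u a = 1 ∧ F.poly = ∑ a, (g a).poly * u a := by
  classical
  induction F with
  | leaf T₀ =>
    by_cases hd : Disjoint T₀.vars T
    · refine ⟨Unit, inferInstance, fun _ => leaf T₀, fun _ => 1, ∅, ?_, ?_, ?_, ?_, ?_, ?_, ?_⟩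
      · rw [Fintype.card_unit]
        exact Nat.one_le_two_pow
      · intro _
        rw [Finset.card_empty]
        exact Nat.zero_le _
      · exact fun _ => Le.refl c _
      · intro _ v hv
        rw [Fm.occ, if_neg (Finset.disjoint_right.1 hd hv)]
      · exact fun _ => one_mem _
      · simp
      · simp [Fm.poly]
    · have hm : 1 ≤ occs T (leaf T₀) := by
        rw [Finset.not_disjoint_iff] at hd
        obtain ⟨v, h1, h2⟩ := hd
        have h3 : (leaf T₀ : Fm n).occ v = 1 := by rw [Fm.occ, if_pos h1]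
        rw [← h3, occs]
        exact Finset.single_le_sum (f := fun v => (leaf T₀ : Fm n).occ v)
          (fun _ _ => Nat.zero_le _) h2
      refine ⟨Bool, inferInstance, fun b => leaf (C (if b then 1 else 0)),
        fun b => if b then T₀ else 1 - T₀, T₀.vars, ?_, ?_, ?_, ?_, ?_, ?_, ?_⟩
      · rw [Fintype.card_bool]
        calc 2 = 2 ^ 1 := rfl
          _ ≤ _ := Nat.pow_le_pow_right (by norm_num) hm
      · intro hlb
        exact le_trans hlb (Nat.le_mul_of_pos_left c hm)
      · exact fun b => Le.const c _ _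
      · intro b v _
        exact occ_const _ v
      · have h1 : Supp T₀.vars T₀ := mem_supported.2 (Set.Subset.refl _)
        intro b
        cases b
        · exact sub_mem (one_mem _) h1
        · exact h1
      · rw [Fintype.sum_bool]
        simp
      · rw [Fintype.sum_bool]
        simp [Fm.poly]
  | add f g ihf ihg =>
    obtain ⟨ι, i1, g1, u1, Z1, a1, a2, a3, a4, a5, a6, a7⟩ := ihf
    obtain ⟨κ, i2, g2, u2, Z2, b1, b2, b3, b4, b5, b6, b7⟩ := ihg
    have hm : occs T (add f g) = occs T f + occs T g := by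
      rw [occs, occs, occs, ← Finset.sum_add_distrib]
      exact Finset.sum_congr rfl fun v _ => rfl
    refine ⟨ι × κ, inferInstance, fun x => add (g1 x.1) (g2 x.2), fun x => u1 x.1 * u2 x.2,
      Z1 ∪ Z2, ?_, ?_, ?_, ?_, ?_, ?_, ?_⟩
    · rw [Fintype.card_prod, hm, pow_add]
      exact Nat.mul_le_mul a1 b1
    · intro hlb
      rw [hm, add_mul]
      exact (Finset.card_union_le _ _).trans (Nat.add_le_add (a2 hlb.1) (b2 hlb.2))
    · exact fun x => (a3 x.1).add (b3 x.2)
    · intro x v hv
      rw [Fm.occ, a4 x.1 v hv, b4 x.2 v hv]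
    · exact fun x => (((a5 x.1).mono Finset.subset_union_left).mul
        ((b5 x.2).mono Finset.subset_union_right))
    · rw [Fintype.sum_prod_type, ← Finset.sum_mul_sum, a6, b6, one_mul]
    · have e1 : ∑ x : ι × κ, (add (g1 x.1) (g2 x.2)).poly * (u1 x.1 * u2 x.2) =
          (∑ a, (g1 a).poly * u1 a) * (∑ b, u2 b) + (∑ a, u1 a) * ∑ b, (g2 b).poly * u2 b := by
        rw [Finset.sum_mul_sum, Finset.sum_mul_sum, Fintype.sum_prod_type,
          ← Finset.sum_add_distrib]
        apply Finset.sum_congr rfl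
        intro a _
        rw [← Finset.sum_add_distrib]
        apply Finset.sum_congr rfl
        intro b _
        rw [Fm.poly]
        ring
      rw [e1, a6, b6, ← a7, ← b7, mul_one, one_mul, Fm.poly]
  | mul f g ihf ihg =>
    obtain ⟨ι, i1, g1, u1, Z1, a1, a2, a3, a4, a5, a6, a7⟩ := ihf
    obtain ⟨κ, i2, g2, u2, Z2, b1, b2, b3, b4, b5, b6, b7⟩ := ihg
    have hm : occs T (mul f g) = occs T f + occs T g := by
      rw [occs, occs, occs, ← Finset.sum_add_distrib]
      exact Finset.sum_congr rfl fun v _ => rfl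
    refine ⟨ι × κ, inferInstance, fun x => mul (g1 x.1) (g2 x.2), fun x => u1 x.1 * u2 x.2,
      Z1 ∪ Z2, ?_, ?_, ?_, ?_, ?_, ?_, ?_⟩
    · rw [Fintype.card_prod, hm, pow_add]
      exact Nat.mul_le_mul a1 b1
    · intro hlb
      rw [hm, add_mul]
      exact (Finset.card_union_le _ _).trans (Nat.add_le_add (a2 hlb.1) (b2 hlb.2))
    · exact fun x => (a3 x.1).mul (b3 x.2)
    · intro x v hv
      rw [Fm.occ, a4 x.1 v hv, b4 x.2 v hv]
    · exact fun x => (((a5 x.1).mono Finset.subset_union_left).mul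
        ((b5 x.2).mono Finset.subset_union_right))
    · rw [Fintype.sum_prod_type, ← Finset.sum_mul_sum, a6, b6, one_mul]
    · have e1 : ∑ x : ι × κ, (mul (g1 x.1) (g2 x.2)).poly * (u1 x.1 * u2 x.2) =
          (∑ a, (g1 a).poly * u1 a) * ∑ b, (g2 b).poly * u2 b := by
        rw [Finset.sum_mul_sum, Fintype.sum_prod_type]
        apply Finset.sum_congr rfl
        intro a _
        apply Finset.sum_congr rfl
        intro b _
        rw [Fm.poly]
        ring
      rw [e1, ← a7, ← b7, Fm.poly]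

/-! ### Monotonicity of the loss -/

theorem win_mono_left {c N N' : ℕ} (h : N ≤ N') (q : ℕ) : win c N q ≤ win c N' q := by
  induction q with
  | zero => exact le_rfl
  | succ q ih =>
    rw [win, win]
    omega

theorem win_le_succ (c N q : ℕ) : win c N q ≤ win c N (q + 1) := by
  rw [win]
  omega

theorem win_mono_right (c N : ℕ) : Monotone (win c N) :=
  monotone_nat_of_le_succ (win_le_succ c N)

theorem bt_mono (c k : ℕ) : Monotone (bt c k) := by
  induction k with
  | zero => exact fun a b h => h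
  | succ k ih =>
    intro a b hab
    rw [bt, bt]
    refine Nat.add_le_add (ih hab) ((win_mono_left ?_ _).trans (win_mono_right _ _ ?_))
    · exact Nat.add_le_add_right (ih (ih (ih hab))) 1
    · exact Nat.pow_le_pow_right (by norm_num) (by omega)

theorem le_bt (c k : ℕ) : ∀ N, N ≤ bt c k N := by
  induction k with
  | zero => exact fun N => le_rfl
  | succ k ih =>
    intro N
    rw [bt]
    exact (ih N).trans (Nat.le_add_right _ _)

section

variable {F : Type*} [Field F] [Algebra ℂ F] (p : Fin n → F)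

theorem RP.loosen {w : ℕ} {β β' : ℕ → ℕ} {f : MvPolynomial (Fin n) ℂ} (h : RP p w β f)
    (hβ : ∀ N, β N ≤ β' N) : RP p w β' f :=
  fun S N L hL hN => h S N L hL ((hβ N).trans hN)

theorem RP.sum {ι : Type} [Fintype ι] {w : ℕ} {β : ℕ → ℕ} (f : ι → MvPolynomial (Fin n) ℂ)
    (h : ∀ i, RP p w β (f i)) :
    RP p (Fintype.card ι * w) (β^[Fintype.card ι]) (∑ i, f i) := by
  intro S N L hL hN
  obtain ⟨L', h1, h2, h3⟩ := many_rp p S (Fintype.card ι)
    (fun j => f ((Fintype.equivFin ι).symm j)) (fun j => h _) N L hL hN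
  refine ⟨L', h1, h2, ?_⟩
  rw [map_sum]
  have h4 := rep_sum p (Finset.univ : Finset ι) (w := w) (L := L') (fun i => res p S (f i))
    (fun i _ => by
      have h5 := h3 (Fintype.equivFin ι i)
      rwa [Equiv.symm_apply_apply] at h5)
  rwa [Finset.card_univ] at h4

/-- The width for derivatives. -/
def wd1 (k : ℕ) : ℕ := 2 ^ k * wd k

/-- The loss for derivatives. -/
def bt1 (c k : ℕ) : ℕ → ℕ := (fun N => bt c k (N + k * c))^[2 ^ k]

theorem one_le_wd1 (k : ℕ) : 1 ≤ wd1 k := by
  rw [wd1]
  exact Nat.mul_pos (Nat.two_pow_pos k) (one_le_wd k)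

theorem bt1_mono (c k : ℕ) : Monotone (bt1 c k) := by
  apply Monotone.iterate
  intro a b hab
  exact bt_mono c k (Nat.add_le_add_right hab _)

theorem le_bt' (c k N : ℕ) : N ≤ bt c k (N + k * c) :=
  (Nat.le_add_right _ _).trans (le_bt c k _)

theorem le_bt1 (c k N : ℕ) : N ≤ bt1 c k N :=
  Function.monotone_iterate_of_id_le (f := fun N => bt c k (N + k * c))
    (fun N => le_bt' c k N) (Nat.zero_le (2 ^ k)) N

/-- Derivatives. -/
theorem rp_pderiv {c k R : ℕ}
    (hp : ∀ G : Fm n, Cl c k R G → G.poly ≠ 0 → aeval p G.poly ≠ 0) {F : Fm n} (hF : Cl c k R F)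
    (v : Fin n) : RP p (wd1 k) (bt1 c k) (MvPolynomial.pderiv v F.poly) := by
  classical
  obtain ⟨ι, i1, g, u, Z, a1, a2, a3, a4, a5, a6, a7⟩ := exists_dec c {v} F
  have hm : occs {v} F ≤ k := by
    rw [occs, Finset.sum_singleton]
    exact hF.occ v
  have hι : Fintype.card ι ≤ 2 ^ k := a1.trans (Nat.pow_le_pow_right (by norm_num) hm)
  have hZ : Z.card ≤ k * c := (a2 hF.lb).trans (Nat.mul_le_mul_right c hm)
  have e : MvPolynomial.pderiv v F.poly = ∑ a, (g a).poly * MvPolynomial.pderiv v (u a) := by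
    rw [a7, map_sum]
    apply Finset.sum_congr rfl
    intro a _
    rw [Derivation.leibniz, smul_eq_mul, smul_eq_mul]
    have h1 : MvPolynomial.pderiv v (g a).poly = 0 := by
      apply (g a).supp_vars.pderiv_eq_zero
      rw [mem_vars_iff, a4 a v (Finset.mem_singleton_self v)]
      exact lt_irrefl 0
    rw [h1, mul_zero, add_zero]
  rw [e]
  have h1 : ∀ a, RP p (wd k * 1) (fun N => bt c k (N + k * c))
      ((g a).poly * MvPolynomial.pderiv v (u a)) := by
    intro a
    have h2 : Leaf (k * c) Z (MvPolynomial.pderiv v (u a)) :=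
      ⟨Z, Finset.Subset.refl _, hZ, (a5 a).pderiv v⟩
    exact RP.mul p (rp_fm p hp (hF.le (a3 a))) (rp_leaf p h2)
  have h2 := RP.sum p _ h1
  refine RP.loosen p (RP.weaken p h2 ?_) ?_
  · rw [wd1, mul_one]
    exact Nat.mul_le_mul_right _ hι
  · intro N
    exact Function.monotone_iterate_of_id_le (f := fun N => bt c k (N + k * c))
      (fun N => le_bt' c k N) hι N

end

/-- The number of parameters. -/
def par (c k r : ℕ) : ℕ := 2 ^ (k * r) + k * r * c

theorem par_mono {c k r r' : ℕ} (h : r ≤ r') : par c k r ≤ par c k r' :=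
  Nat.add_le_add (Nat.pow_le_pow_right (by norm_num) (Nat.mul_le_mul_left k h))
    (Nat.mul_le_mul_right c (Nat.mul_le_mul_left k h))

/-- The polynomials of the class. -/
def Pol (n c k R : ℕ) (f : MvPolynomial (Fin n) ℂ) : Prop := ∃ F : Fm n, Cl c k R F ∧ F.poly = f

theorem pol_zero (c k R : ℕ) : Pol n c k R 0 := by
  refine ⟨leaf (C 0), ⟨?_, ?_, ?_⟩, C_0⟩
  · rw [Fm.LB, vars_C]
    exact Nat.zero_le _
  · intro i
    rw [occ_const]
    exact Nat.zero_le _
  · exact Nat.zero_le _

theorem pol_X {c k : ℕ} (hc : 1 ≤ c) (hk : 1 ≤ k) (R : ℕ) (w : Fin n) : Pol n c k R (X w) := by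
  refine ⟨leaf (X w), ⟨?_, ?_, ?_⟩, rfl⟩
  · rw [Fm.LB, vars_X, Finset.card_singleton]
    exact hc
  · intro i
    rw [Fm.occ]
    split_ifs
    · exact hk
    · exact Nat.zero_le _
  · exact Nat.zero_le _

/-- A formula is a polynomial in the variables of `T` and in few formulas without these
variables. -/
theorem rk_params {c k R : ℕ} (hc : 1 ≤ c) (hk : 1 ≤ k) (T : Finset (Fin n)) {F : Fm n}
    (hF : Cl c k R F) :
    ∃ l : List (MvPolynomial (Fin n) ℂ), l.length ≤ par c k T.card ∧
      (∀ g ∈ l, ∃ s', Disjoint s' T ∧ Supp s' g ∧ Pol n c k R g) ∧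
      F.poly ∈ Algebra.adjoin ℂ ({g | g ∈ l} ∪
        (fun v => (X v : MvPolynomial (Fin n) ℂ)) '' T) := by
  classical
  obtain ⟨ι, i1, g, u, Z, a1, a2, a3, a4, a5, a6, a7⟩ := exists_dec c T F
  have hm : occs T F ≤ k * T.card := by
    rw [occs, mul_comm]
    exact Finset.sum_le_card_nsmul _ _ _ fun v _ => hF.occ v
  refine ⟨(Finset.univ : Finset ι).toList.map (fun a => (g a).poly) ++ (Z \ T).toList.map X,
    ?_, ?_, ?_⟩
  · rw [List.length_append, List.length_map, List.length_map, Finset.length_toList,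
      Finset.length_toList, Finset.card_univ, par]
    refine Nat.add_le_add (a1.trans (Nat.pow_le_pow_right (by norm_num) hm)) ?_
    exact (Finset.card_le_card Finset.sdiff_subset).trans ((a2 hF.lb).trans
      (Nat.mul_le_mul_right c hm))
  · intro f hf
    rcases List.mem_append.1 hf with hf | hf
    · obtain ⟨a, -, rfl⟩ := List.mem_map.1 hf
      refine ⟨(g a).vars, ?_, (g a).supp_vars, g a, hF.le (a3 a), rfl⟩
      rw [Finset.disjoint_right]
      intro v hv
      rw [mem_vars_iff, a4 a v hv]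
      exact lt_irrefl 0
    · obtain ⟨w, hw, rfl⟩ := List.mem_map.1 hf
      rw [Finset.mem_toList, Finset.mem_sdiff] at hw
      refine ⟨{w}, Finset.disjoint_singleton_left.2 hw.2, ?_, pol_X hc hk R w⟩
      exact Algebra.subset_adjoin ⟨w, by simp, rfl⟩
  · rw [a7]
    have hg : ∀ a, (g a).poly ∈ Algebra.adjoin ℂ
        ({g' | g' ∈ (Finset.univ : Finset ι).toList.map (fun a => (g a).poly) ++
          (Z \ T).toList.map X} ∪ (fun v => (X v : MvPolynomial (Fin n) ℂ)) '' T) := by
      intro a
      apply Algebra.subset_adjoin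
      left
      exact List.mem_append_left _ (List.mem_map.2 ⟨a, Finset.mem_toList.2 (Finset.mem_univ a),
        rfl⟩)
    refine sum_mem fun a _ => mul_mem (hg a) ?_
    have h2 : supported ℂ (Z : Set (Fin n)) ≤ Algebra.adjoin ℂ
        ({g' | g' ∈ (Finset.univ : Finset ι).toList.map (fun a => (g a).poly) ++
          (Z \ T).toList.map X} ∪ (fun v => (X v : MvPolynomial (Fin n) ℂ)) '' T) := by
      apply Algebra.adjoin_le
      rintro _ ⟨w, hw, rfl⟩
      apply Algebra.subset_adjoin
      by_cases hwT : w ∈ T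
      · right
        exact ⟨w, Finset.mem_coe.2 hwT, rfl⟩
      · left
        refine List.mem_append_right _ (List.mem_map.2 ⟨w, ?_, rfl⟩)
        rw [Finset.mem_toList, Finset.mem_sdiff]
        exact ⟨Finset.mem_coe.1 hw, hwT⟩
    exact h2 (a5 a)

end Pool.Agent.Helper62.RK
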