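import Mathlib
import Pool.Agent.Helper62.RK.Dec
import Pool.Agent.Helper91.Ov.Final

/-!
# Products of polynomials in few read-k formulas
-/

set_option autoImplicit false
set_option linter.unusedSectionVars false

namespace Pool.Agent.Helper62.RK

open MvPolynomial Fm
open Pool.Agent.Helper91.Ov (Supp RP rp_det gp Hit pF pF_eq KP zK wK exists_phi split_supp)
open Pool.Agent.Helper28.D4 (G map_G)
open Pool.Agent.Helper62.VT
open Pool.Agent.Helper91.RO (res EA ev pderiv_res)

variable {n : ℕ}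

/-- The support bound. -/
def suppK (c k M : ℕ) : ℕ := M + (bt1 c k)^[M * M] (M.factorial * wd1 k ^ M)

/-- The number of vectors. -/
def KR (c k R M : ℕ) : ℕ := suppK c k M + hl c k R

theorem bt1_iter_le {c k q q' N N' : ℕ} (hq : q ≤ q') (hN : N ≤ N') :
    (bt1 c k)^[q] N ≤ (bt1 c k)^[q'] N' := by
  calc (bt1 c k)^[q] N ≤ (bt1 c k)^[q] N' := (bt1_mono c k).iterate q hN
    _ ≤ (bt1 c k)^[q'] N' :=
      Function.monotone_iterate_of_id_le (fun N => le_bt1 c k N) hq N'

theorem suppK_mono {c k t M : ℕ} (h : t ≤ M) : suppK c k t ≤ suppK c k M :=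
  Nat.add_le_add h (bt1_iter_le (Nat.mul_le_mul h h) (Nat.mul_le_mul
    (Nat.factorial_le h) (Nat.pow_le_pow_right (one_le_wd1 k) h)))

/-- Algebraically independent formulas stay independent. -/
theorem algInd_res {F : Type*} [Field F] [Algebra ℂ F] {c k R : ℕ} (p : Fin n → F)
    (hp : ∀ G : Fm n, Cl c k R G → G.poly ≠ 0 → aeval p G.poly ≠ 0) {t : ℕ}
    (f : Fin t → MvPolynomial (Fin n) ℂ) (hf : ∀ i, Pol n c k R (f i))
    (hi : AlgebraicIndependent ℂ f) :
    ∃ S : Finset (Fin n), S.card ≤ suppK c k t ∧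
      AlgebraicIndependent F fun i => res p S (f i) := by
  classical
  have : CharZero F := charZero_of_injective_algebraMap (algebraMap ℂ F).injective
  obtain ⟨e, hdet⟩ := Pool.Agent.Helper93.D4.jac_of_algInd f hi
  have h1 := rp_det p (Matrix.of fun i j => MvPolynomial.pderiv (e j) (f i)) (w := wd1 k)
    (β := bt1 c k) (fun i j => by
    obtain ⟨F', h1, h2⟩ := hf i
    rw [Matrix.of_apply, ← h2]
    exact rp_pderiv p hp h1 (e j))
  obtain ⟨S, h2, h3, h4⟩ := h1.bounded_support p hdet (Finset.univ.image e)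
  refine ⟨S, h3.trans (Nat.add_le_add_right ?_ _), ?_⟩
  · refine Finset.card_image_le.trans ?_
    rw [Finset.card_univ, Fintype.card_fin]
  · apply Pool.Agent.Helper91.SW.algInd_of_minor (fun i => res p S (f i)) e
    rw [AlgHom.map_det] at h4
    intro h0
    apply h4
    rw [← h0]
    congr 1
    ext1 i j
    rw [AlgHom.mapMatrix_apply, Matrix.map_apply, Matrix.of_apply, Matrix.of_apply, pderiv_res]
    exact h2 (Finset.mem_image_of_mem e (Finset.mem_univ j))

theorem rk_faithful (n c k R M : ℕ) (f : Fin M → MvPolynomial (Fin n) ℂ)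
    (hf : ∀ j, Pol n c k R (f j)) (H : MvPolynomial (Fin M) ℂ) (h : aeval f H ≠ 0) :
    spec n (KR c k R M) (fun _ => 0) (aeval f H) ≠ 0 := by
  obtain ⟨t, ht, s, hs, B, g, hB, hBg⟩ := Pool.Agent.Helper28.D4.norm_trick (r := M) f (by
    intro s hs
    have : Function.Injective s := fun i j hij => hs.injective (by simp [hij])
    have := Fintype.card_le_of_injective s this
    simp at this) H h
  obtain ⟨S, hS1, hS2⟩ := algInd_res (pF n (hl c k R)) (cl_hp c k R)
    (fun i => f (s i)) (fun i => hf (s i)) hs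
  have hS3 : S.card ≤ suppK c k M := hS1.trans (suppK_mono ht)
  obtain ⟨φ, hφ⟩ := exists_phi S hS3 (fun j : Fin (hl c k R) => zK j) (fun j => wK j)
  rw [← pF_eq] at hφ
  intro h0
  have h1 : res (pF n (hl c k R)) S (aeval f H) = 0 := by
    rw [← hφ]
    have e : spec n (suppK c k M + hl c k R) (fun _ => 0) (aeval f H) = 0 := h0
    rw [e, map_zero]
  have h2 := congrArg (res (pF n (hl c k R)) S) hBg
  rw [map_mul, h1, zero_mul, MvPolynomial.comp_aeval_apply] at h2
  have h3 : aeval (fun i => res (pF n (hl c k R)) S (f (s i)))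
      (map (algebraMap ℂ (KP (hl c k R))) B) = 0 := by
    rw [aeval_map_algebraMap]
    exact h2
  rw [algebraicIndependent_iff] at hS2
  have h4 := hS2 _ h3
  exact hB (MvPolynomial.map_injective _ (algebraMap ℂ (KP (hl c k R))).injective
    (h4.trans (map_zero _).symm))

/-- The parameters of a formula. -/
theorem rk_split {c k R r : ℕ} (hc : 1 ≤ c) (hk : 1 ≤ k) {e : Fin r → Fin n}
    (he : Function.Injective e) {A : MvPolynomial (Fin n) ℂ} (hA : Pol n c k R A) :
    ∃ γ : Fin (par c k r) → MvPolynomial (Fin n) ℂ, (∀ j, Pol n c k R (γ j)) ∧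
      split e (X : Fin n → MvPolynomial (Fin n) ℂ) A ∈
        W r (Algebra.adjoin ℂ (Set.range γ)) := by
  classical
  obtain ⟨F, hF, rfl⟩ := hA
  obtain ⟨l, h1, h2, h3⟩ := rk_params hc hk (Finset.univ.image e) hF
  have hl : l.length ≤ par c k r := by
    refine h1.trans (par_mono ?_)
    refine Finset.card_image_le.trans ?_
    rw [Finset.card_univ, Fintype.card_fin]
  let γ : Fin (par c k r) → MvPolynomial (Fin n) ℂ := fun j => l.getD j 0
  have hγ : ∀ g ∈ l, ∃ j, γ j = g := by
    intro g hg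
    obtain ⟨i, hi, rfl⟩ := List.getElem_of_mem hg
    refine ⟨⟨i, lt_of_lt_of_le hi hl⟩, ?_⟩
    exact List.getD_eq_getElem l 0 hi
  refine ⟨γ, ?_, ?_⟩
  · intro j
    by_cases hj : (j : ℕ) < l.length
    · have e1 : γ j = l[(j : ℕ)] := List.getD_eq_getElem l 0 hj
      obtain ⟨s', -, -, hs'⟩ := h2 _ (List.getElem_mem hj)
      rw [e1]
      exact hs'
    · have e1 : γ j = 0 := List.getD_eq_default l 0 (not_lt.1 hj)
      rw [e1]
      exact pol_zero c k R
  · have hle : Algebra.adjoin ℂ ({g | g ∈ l} ∪ (fun v => (X v : MvPolynomial (Fin n) ℂ)) ''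
        ((Finset.univ.image e : Finset (Fin n)) : Set (Fin n))) ≤
        (W r (Algebra.adjoin ℂ (Set.range γ))).comap
          (split e (X : Fin n → MvPolynomial (Fin n) ℂ)) := by
      apply Algebra.adjoin_le
      rintro g (hg | ⟨w, hw, rfl⟩)
      · have hg' : g ∈ l := hg
        obtain ⟨s', hd, hs', -⟩ := h2 g hg'
        change split e (X : Fin n → MvPolynomial (Fin n) ℂ) g ∈
          W r (Algebra.adjoin ℂ (Set.range γ))
        rw [split_supp hs' hd]
        obtain ⟨j, hj⟩ := hγ g hg'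
        exact C_mem_W (Algebra.subset_adjoin ⟨j, hj⟩)
      · obtain ⟨j, -, rfl⟩ := Finset.mem_image.1 (Finset.mem_coe.1 hw)
        change split e (X : Fin n → MvPolynomial (Fin n) ℂ) (X (e j)) ∈
          W r (Algebra.adjoin ℂ (Set.range γ))
        rw [split_X_mem he]
        exact X_mem_W _ j
    exact hle h3

/-- The factors. -/
def RkFactors (n c k R κ : ℕ) : Set (MvPolynomial (Fin n) ℂ) :=
  {f | ∃ (A : Fin κ → MvPolynomial (Fin n) ℂ) (F : MvPolynomial (Fin κ) ℂ),
    (∀ j, Pol n c k R (A j)) ∧ f = aeval A F}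

theorem rk_hits {c k R m r κ d : ℕ} (hc : 1 ≤ c) (hk : 1 ≤ k) (P : Fin m → MvPolynomial (Fin n) ℂ)
    (hP : ∀ i, P i ∈ Submonoid.closure (RkFactors n c k R κ))
    (hr : ∀ s : Fin (r + 1) → Fin m, ¬ AlgebraicIndependent ℂ fun i => P (s i))
    (g : MvPolynomial (Fin m) ℂ) (h0 : aeval P g ≠ 0) (hd : (aeval P g).totalDegree ≤ d) :
    ∃ a ∈ gpts n (r + KR c k R ((r + 1) * (κ * par c k r))) (d * n),
      eval (fun l => ((a l : ℤ) : ℂ)) (aeval P g) ≠ 0 := by
  classical
  obtain ⟨ε, hε, h⟩ := exists_point (M := KR c k R ((r + 1) * (κ * par c k r))) (D := 0) P hr g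
    h0 hd {fun _ => 0} (by
      rintro ε rfl l
      rw [Polynomial.natDegree_zero]) (b := d * n) (by
      rw [zero_add]) (by
      intro r' hr' t ht e he
      have hL : ∀ i, ∃ L : List (MvPolynomial (Fin n) ℂ), (∀ q ∈ L, q ∈ RkFactors n c k R κ) ∧
          P (t i) = L.prod := fun i => by
        obtain ⟨L, hL, h⟩ := Submonoid.exists_list_of_mem_closure (hP (t i))
        exact ⟨L, hL, h.symm⟩
      choose L hL1 hL2 using hL
      obtain ⟨B, hB1, hB2, f, mm, hf0, hfL, hfP, -⟩ :=
        exists_factorization (fun i => P (t i)) L hL2 ht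
      refine ⟨B, hB1, hB2, f, mm, hf0, hfP, ?_⟩
      have hfac : ∀ b, f b ∈ RkFactors n c k R κ := by
        intro b
        obtain ⟨i, hi⟩ := hfL b
        exact hL1 i _ hi
      choose A F hA hfA using hfac
      have hγ : ∀ b j, ∃ γ : Fin (par c k r') → MvPolynomial (Fin n) ℂ,
          (∀ j, Pol n c k R (γ j)) ∧
          split e (X : Fin n → MvPolynomial (Fin n) ℂ) (A b j) ∈
            W r' (Algebra.adjoin ℂ (Set.range γ)) :=
        fun b j => rk_split hc hk he (hA b j)
      choose γ hγ1 hγ2 using hγ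
      let γ' : B → Fin (κ * par c k r') → MvPolynomial (Fin n) ℂ := fun b x =>
        γ b (finProdFinEquiv.symm x).1 (finProdFinEquiv.symm x).2
      refine ⟨fun b => Set.range (γ' b), ?_, fun _ => 0, rfl, ?_⟩
      · intro b k'
        rw [hfA b]
        apply coeff_split_aeval
        intro j
        refine W_mono (Algebra.adjoin_mono ?_) (hγ2 b j)
        rintro _ ⟨i, rfl⟩
        refine ⟨finProdFinEquiv (j, i), ?_⟩
        change γ b (finProdFinEquiv.symm (finProdFinEquiv (j, i))).1
          (finProdFinEquiv.symm (finProdFinEquiv (j, i))).2 = γ b j i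
        rw [Equiv.symm_apply_apply]
      · intro T hT
        exact faithful_of_tuple _ (Q := Pol n c k R) (pol_zero c k R) γ'
          (fun b x => hγ1 b _ _) (t := r' + 1)
          (Nat.mul_le_mul (Nat.succ_le_succ hr') (Nat.mul_le_mul_left κ (par_mono hr')))
          (fun c' hc' H hH => rk_faithful n c k R _ c' hc' H hH) T hT)
  rw [Set.mem_singleton_iff] at hε
  subst hε
  obtain ⟨a, ha, hne⟩ := h
  refine ⟨a, pts_zero_subset _ _ _ ?_, hne⟩
  have e : (fun l : Fin n => (0 : Polynomial ℤ).eval) = fun _ _ => (0 : ℤ) := by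
    funext l x
    exact Polynomial.eval_zero
  rw [← e]
  exact ha

end Pool.Agent.Helper62.RK
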